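import Pool.Agent.N698.VT.Pa

set_option autoImplicit false

/-!
The lower bound for the error term; the consequence for `ε`.
-/

namespace Pool.Agent.N698.VT

open NumberField IsDedekindDomain Height Filter Topology Pool.Agent.W231.V

theorem totalWeight_eq (K : Type*) [Field K] [NumberField K] :
    (totalWeight K : ℝ) = (Module.finrank ℚ K : ℝ) := by
  rw [← sum_mult]
  have := NumberField.InfinitePlace.sum_mult_eq (K := K)
  exact_mod_cast this

theorem lower {K : Type*} [Field K] [NumberField K] {n : ℕ} (hn : 1 ≤ n)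
    (L : Fin (n + 2) → Fin (n + 1) → K)
    (hgp : ∀ I : Finset (Fin (n + 2)), I.card = n + 1 → LinearIndependent K (fun i : I => L i))
    {t : ℕ} (F : Fin t → MvPolynomial (Fin (n + 1)) K) (e : Fin t → ℕ) (hF0 : ∀ j, F j ≠ 0)
    (hF : ∀ j, (F j).IsHomogeneous (e j)) {c : ℝ} (hc : c < 4) :
    ∃ H₀ : ℝ, ∀ {Ω : Type} [Field Ω] [Algebra K Ω] (G : MvPolynomial (Fin (n + 1)) Ω) (δ : ℕ),
      G ≠ 0 → G.IsHomogeneous δ → ∀ H E : ℝ, H₀ ≤ H → 0 ≤ E →
      E + Module.finrank ℚ K * Real.log (max (δ : ℝ) 1) ≤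
        c * √(Module.finrank ℚ K * H) / Real.log H →
      ∃ x : Fin (n + 1) → K, (∀ i, ∑ j, L i j * x j ≠ 0) ∧
        (∀ j, MvPolynomial.eval x (F j) ≠ 0) ∧
        MvPolynomial.eval (fun j => algebraMap K Ω (x j)) G ≠ 0 ∧ logHeight x ≤ H ∧
        {v | Cond L F e x v}.Finite ∧
        ∀ T : Finset (HeightOneSpectrum (𝓞 K)), (∀ v ∈ T, Cond L F e x v) →
          ∑ v ∈ T, ell v + E ≤ (1 + ∑ j, (e j : ℝ)) * logHeight x := by
  obtain ⟨k, rfl⟩ : ∃ k, n = k + 1 := ⟨n - 1, by omega⟩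
  obtain ⟨A, c0, hAd⟩ := exists_adapted L hgp
  obtain ⟨C, hC, hmain⟩ := arith hAd F e hF
  set d : ℝ := (Module.finrank ℚ K : ℝ) with hd
  have hd1 : 1 ≤ d := by
    rw [hd]
    exact_mod_cast Module.finrank_pos (R := ℚ) (M := K)
  have hW : (totalWeight K : ℝ) = d := totalWeight_eq K
  rw [hW] at hmain
  set κ : ℝ := 1 + ∑ j, (e j : ℝ) with hκ
  have hκ0 : 0 ≤ κ := by
    have : (0 : ℝ) ≤ ∑ j, (e j : ℝ) := Finset.sum_nonneg fun j _ => Nat.cast_nonneg _
    linarith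
  obtain ⟨H0, hH0⟩ := params d hd1 C (C + κ * C) hC (by positivity) (∑ j, e j + 1) (by omega) hc
  refine ⟨H0, fun {Ω} _ _ G δ hG hGδ H E hH hE hδ => ?_⟩
  obtain ⟨y, m, h, hy, hV, hht, hgain⟩ := hH0 H E hH hE δ hδ
  rw [← add_assoc] at hV
  obtain ⟨z, a, w, X, hz0, hzp, hsum, hw, hbez, hzX, hXz, hFx, hGx, hXle⟩ :=
    exists_z hAd F e hF hF0 G hG hGδ hy hV
  obtain ⟨r1, r2, r3, r4, r5⟩ := hmain z a y m w X hy hz0 hzp hsum hw hbez hzX hXz hFx
  have hX1 : 1 ≤ X := by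
    refine le_trans ?_ (hzX 0)
    exact_mod_cast Int.one_le_abs (hz0 0)
  refine ⟨pnt A fun i => (z i : K), r1, hFx, hGx, ?_, r4, fun T hT => ?_⟩
  · refine r3.trans (le_trans ?_ hht)
    have h1 : Real.log X ≤ m * Real.log 2 + h := by
      have h2 := Real.log_le_log (by linarith) hXle
      rwa [Real.log_mul (by positivity) (Real.exp_pos _).ne', Real.log_pow, Real.log_exp] at h2
    have := mul_le_mul_of_nonneg_left h1 (by linarith : 0 ≤ d)
    linarith
  · have h1 := r5 T hT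
    have h2 := mul_le_mul_of_nonneg_left r2 hκ0
    set hx := logHeight (pnt A fun i => (z i : K))
    have h3 : d * (Real.log (primorial y) + (Real.log X - m * Real.log 2) +
        (∑ j, (e j : ℝ)) * Real.log X) = κ * (d * Real.log X) -
        d * (m * Real.log 2 - Real.log (primorial y)) := by rw [hκ]; ring
    rw [h3] at h1
    linarith

/-- the calculus for the consequence -/
theorem calc_eps (d : ℝ) (hd : 1 ≤ d) (H0 : ℝ) {c : ℝ} (hc0 : 0 ≤ c) (hc : c < 1) :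
    ∃ ε₀ : ℝ, 0 < ε₀ ∧ ∀ ε : ℝ, 0 < ε → ε ≤ ε₀ → ∃ H : ℝ, H0 ≤ H ∧ 0 ≤ H ∧
      ε * H + 1 + c * d / (ε * Real.log (1 / ε) ^ 2) ≤ (3 + c) * √(d * H) / Real.log H := by
  have hd0 : 0 < d := by linarith
  -- large `Λ`
  have e1 : ∀ᶠ x : ℝ in atTop, Real.log d + 1 ≤ 2 * Real.log x := by
    filter_upwards [Real.tendsto_log_atTop.eventually_ge_atTop ((Real.log d + 1) / 2)] with x hx
    linarith
  have e2 : ∀ᶠ x : ℝ in atTop, max H0 2 * x ^ 2 ≤ Real.exp x := by
    have h1 : Tendsto (fun x : ℝ => Real.exp x / x ^ 2) atTop atTop :=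
      Real.tendsto_exp_div_pow_atTop 2
    filter_upwards [h1.eventually_ge_atTop (max H0 2), eventually_gt_atTop 0] with x hx hx0
    rwa [le_div_iff₀ (by positivity)] at hx
  have e3 : ∀ᶠ x : ℝ in atTop, 2 / (1 - c) * x ^ 2 ≤ Real.exp x := by
    have h1 : Tendsto (fun x : ℝ => Real.exp x / x ^ 2) atTop atTop :=
      Real.tendsto_exp_div_pow_atTop 2
    filter_upwards [h1.eventually_ge_atTop (2 / (1 - c)), eventually_gt_atTop 0] with x hx hx0
    rwa [le_div_iff₀ (by positivity)] at hx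
  obtain ⟨x0, hx0⟩ := eventually_atTop.1 (((e1.and e2).and e3).and (eventually_ge_atTop 1))
  refine ⟨Real.exp (-x0), Real.exp_pos _, fun ε hε hεx => ?_⟩
  set Λ := Real.log (1 / ε) with hΛ
  have hΛx : x0 ≤ Λ := by
    rw [hΛ, Real.log_div one_ne_zero hε.ne', Real.log_one, zero_sub]
    have := Real.log_le_log hε hεx
    rw [Real.log_exp] at this
    linarith
  obtain ⟨⟨⟨q1, q2⟩, q3⟩, q4⟩ := hx0 Λ hΛx
  have hΛ0 : 0 < Λ := by linarith
  have hexpΛ : Real.exp Λ = 1 / ε := by rw [hΛ, Real.exp_log (by positivity)]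
  rw [hexpΛ] at q2 q3
  set H := d / (ε * Λ) ^ 2 with hH
  have hH0 : 0 < H := by positivity
  have hε1 : ε ≤ 1 := by
    have h1 : (1 : ℝ) ≤ 1 / ε := by
      rw [← hexpΛ]; exact Real.one_le_exp hΛ0.le
    rwa [le_div_iff₀ hε, one_mul] at h1
  have hH1 : max H0 2 ≤ H := by
    rw [hH, le_div_iff₀ (by positivity)]
    rw [le_div_iff₀ hε] at q2
    calc max H0 2 * (ε * Λ) ^ 2 = (max H0 2 * Λ ^ 2 * ε) * ε := by ring
      _ ≤ 1 * 1 := mul_le_mul q2 hε1 hε.le zero_le_one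
      _ ≤ d := by linarith
  have hHtwo : 2 ≤ H := (le_max_right _ _).trans hH1
  refine ⟨H, (le_max_left _ _).trans hH1, hH0.le, ?_⟩
  have hsq : √(d * H) = d / (ε * Λ) := by
    have : d * H = (d / (ε * Λ)) ^ 2 := by rw [hH]; field_simp
    rw [this, Real.sqrt_sq (by positivity)]
  have hlogH : Real.log H = Real.log d + 2 * Λ - 2 * Real.log Λ := by
    rw [hH, Real.log_div hd0.ne' (by positivity), Real.log_pow, Real.log_mul hε.ne' hΛ0.ne']
    have : Real.log ε = -Λ := by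
      rw [hΛ, Real.log_div one_ne_zero hε.ne', Real.log_one, zero_sub, neg_neg]
    rw [this]; push_cast; ring
  have hlogH2 : Real.log H ≤ 2 * Λ := by rw [hlogH]; linarith
  have hlogHpos : 0 < Real.log H := Real.log_pos (by linarith)
  set u := d / (ε * Λ ^ 2) with hu
  have hu0 : 0 < u := by positivity
  have hεH : ε * H = u := by rw [hH, hu]; field_simp
  have hcu : c * d / (ε * Λ ^ 2) = c * u := by rw [hu]; ring
  have h1u : 1 ≤ (1 - c) / 2 * u := by
    have hc1 : 0 < 1 - c := by linarith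
    rw [hu, mul_div_assoc', le_div_iff₀ (by positivity), one_mul]
    rw [le_div_iff₀ hε] at q3
    have h2 : (1 - c) / 2 * (2 / (1 - c) * Λ ^ 2 * ε) ≤ (1 - c) / 2 * 1 :=
      mul_le_mul_of_nonneg_left q3 (by positivity)
    have h3 : (1 - c) / 2 * (2 / (1 - c) * Λ ^ 2 * ε) = ε * Λ ^ 2 := by field_simp
    rw [h3] at h2
    refine h2.trans ?_
    exact mul_le_mul_of_nonneg_left hd (by positivity)
  rw [hεH, hcu, hsq]
  have h4 : (3 + c) * (d / (ε * Λ)) / (2 * Λ) ≤ (3 + c) * (d / (ε * Λ)) / Real.log H :=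
    div_le_div_of_nonneg_left (by positivity) hlogHpos hlogH2
  have h5 : (3 + c) * (d / (ε * Λ)) / (2 * Λ) = (3 + c) / 2 * u := by rw [hu]; field_simp
  rw [h5] at h4
  refine le_trans ?_ h4
  linarith

end Pool.Agent.N698.VT
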