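import Pool.Agent.W231.V.Geo

set_option autoImplicit false

/-!
Heights and primes of integral vectors over a number field.
-/

namespace Pool.Agent.N698.VT

open NumberField IsDedekindDomain Height Finset Pool.Agent.W231.V

variable {K : Type*} [Field K] [NumberField K]

lemma exists_prime_lt (v : HeightOneSpectrum (𝓞 K)) (a : ℕ) :
    a ≠ 0 → fv v (a : K) < 1 → ∃ p : ℕ, p.Prime ∧ p ∣ a ∧ fv v (p : K) < 1 := by
  induction a using Nat.recOnMul with
  | zero => intro h; exact absurd rfl h
  | one => intro _ h; simp at h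
  | prime p hp => intro _ h; exact ⟨p, hp, dvd_rfl, h⟩
  | mul a b iha ihb =>
    intro h0 h
    have ha : a ≠ 0 := fun h' => h0 (by rw [h', zero_mul])
    have hb : b ≠ 0 := fun h' => h0 (by rw [h', mul_zero])
    by_cases h1 : fv v (a : K) < 1
    · obtain ⟨p, hp, hpa, hpv⟩ := iha ha h1
      exact ⟨p, hp, hpa.mul_right b, hpv⟩
    by_cases h2 : fv v (b : K) < 1
    · obtain ⟨p, hp, hpa, hpv⟩ := ihb hb h2
      exact ⟨p, hp, hpa.mul_left a, hpv⟩
    exfalso
    rw [Nat.cast_mul, map_mul] at h
    have := one_le_mul_of_one_le_of_one_le (not_lt.1 h1) (not_lt.1 h2)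
    linarith

lemma fv_int_natAbs (v : HeightOneSpectrum (𝓞 K)) (a : ℤ) :
    fv v (a : K) = fv v ((a.natAbs : ℕ) : K) := by
  rcases Int.natAbs_eq a with h | h
  · conv_lhs => rw [h]
    simp
  · conv_lhs => rw [h]
    rw [Int.cast_neg, map_neg_eq_map]
    simp

lemma fv_int (v : HeightOneSpectrum (𝓞 K)) (a : ℤ) : fv v (a : K) ≤ 1 := by
  rw [fv_int_natAbs]
  exact fv_nat v _

/-- a divisor of a nonzero integer composed of primes up to `y` divides the primorial -/
lemma lt_primorial (v : HeightOneSpectrum (𝓞 K)) {a : ℤ} (ha : a ≠ 0) {y : ℕ}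
    (hy : ∀ p : ℕ, p.Prime → (p : ℤ) ∣ a → p ≤ y) (h : fv v (a : K) < 1) :
    fv v ((primorial y : ℕ) : K) < 1 := by
  rw [fv_int_natAbs] at h
  obtain ⟨p, hp, hpa, hpv⟩ := exists_prime_lt v _ (Int.natAbs_ne_zero.2 ha) h
  have hple := hy p hp (Int.natCast_dvd.2 hpa)
  obtain ⟨b, hb⟩ := hp.dvd_primorial_iff.2 hple
  rw [hb, Nat.cast_mul, map_mul]
  exact mul_lt_one_of_nonneg_of_lt_one_left ((fv v).nonneg _) hpv (fv_nat v b)

lemma iSup_eq_one (v : HeightOneSpectrum (𝓞 K)) {ι : Type*} [Fintype ι] [Nonempty ι] (z c : ι → ℤ)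
    (h : ∑ i, c i * z i = 1) : ⨆ i, fv v (z i : K) = 1 := by
  refine le_antisymm (ciSup_le fun i => fv_int v _) ?_
  by_contra hcon
  push Not at hcon
  have h1 : ∀ i, fv v (z i : K) < 1 := fun i =>
    (le_ciSup (f := fun i => fv v (z i : K)) (Set.finite_range _).bddAbove i).trans_lt hcon
  have h2 : ∀ s : Finset ι, fv v ((∑ i ∈ s, c i * z i : ℤ) : K) < 1 := by
    classical
    intro s
    induction s using Finset.induction_on with
    | empty => simp
    | insert a s ha ih =>
      rw [Finset.sum_insert ha, Int.cast_add]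
      refine (fv_na v _ _).trans_lt (max_lt ?_ ih)
      rw [Int.cast_mul, map_mul, mul_comm]
      exact mul_lt_one_of_nonneg_of_lt_one_left ((fv v).nonneg _) (h1 a) (fv_int v _)
  have h3 := h2 Finset.univ
  rw [h, Int.cast_one, map_one] at h3
  exact lt_irrefl _ h3

lemma logHeight_int_ge {ι : Type*} [Fintype ι] [Nonempty ι] (z c : ι → ℤ)
    (h : ∑ i, c i * z i = 1) (i : ι) (hi : z i ≠ 0) :
    (totalWeight K : ℝ) * Real.log |(z i : ℝ)| ≤ logHeight (fun i => (z i : K)) := by
  have hz : (fun i => (z i : K)) ≠ 0 := by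
    intro h0
    have := congrFun h0 i
    simp only [Pi.zero_apply, Int.cast_eq_zero] at this
    exact hi this
  have hpos : 0 < |(z i : ℝ)| := abs_pos.2 (by exact_mod_cast hi)
  rw [logHeight_eq_log_mulHeight, ← Real.log_pow]
  refine Real.log_le_log (pow_pos hpos _) ?_
  rw [NumberField.mulHeight_eq hz]
  have h4 : (∏ᶠ v : FinitePlace K, ⨆ i, v (z i : K)) = 1 := by
    refine finprod_eq_one_of_forall_eq_one fun v => ?_
    have := iSup_eq_one v.maximalIdeal z c h
    simpa only [fv_apply, FinitePlace.mk_maximalIdeal] using this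
  rw [h4, mul_one, totalWeight_eq_sum_mult, ← Finset.prod_pow_eq_pow_sum]
  refine Finset.prod_le_prod (fun w _ => by positivity) fun w _ => ?_
  refine pow_le_pow_left₀ (abs_nonneg _) ?_ _
  have e : |(z i : ℝ)| = w (z i : K) := by
    have : w (z i : K) = ‖(z i : ℂ)‖ := by
      rw [← InfinitePlace.norm_embedding_eq w, map_intCast]
    rw [this, Complex.norm_intCast]
  rw [e]
  exact le_ciSup (f := fun i => w (z i : K)) (Set.finite_range _).bddAbove i

omit [NumberField K] in
lemma w_int (w : InfinitePlace K) (a : ℤ) : w (a : K) = |(a : ℝ)| := by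
  rw [← InfinitePlace.norm_embedding_eq w, map_intCast, Complex.norm_intCast]

lemma logHeight_int_le {ι : Type*} [Fintype ι] [Nonempty ι] (z : ι → ℤ) {X : ℝ} (hX : 1 ≤ X)
    (hz : ∀ i, |(z i : ℝ)| ≤ X) (i : ι) (hi : z i ≠ 0) :
    logHeight (fun i => (z i : K)) ≤ (totalWeight K : ℝ) * Real.log X := by
  refine logHeight_le_of ?_ (by linarith) (fun w j => ?_) fun v j => fv_int v _
  · intro h0
    have := congrFun h0 i
    simp only [Pi.zero_apply, Int.cast_eq_zero] at this
    exact hi this
  · rw [w_int]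
    exact hz j

/-- The height of a form at integral points. -/
lemma logHeight₁_form {σ : Type*} [Fintype σ] (F : MvPolynomial σ K) (e : ℕ)
    (hF : F.totalDegree ≤ e) : ∃ C : ℝ, ∀ (z : σ → ℤ) (X : ℝ), 1 ≤ X → (∀ i, |(z i : ℝ)| ≤ X) →
    logHeight₁ (MvPolynomial.eval (fun i => (z i : K)) F) ≤
      (totalWeight K : ℝ) * (e * Real.log X) + C := by
  classical
  set A : Fin 2 × Option F.support → K := fun p =>
    ![fun o : Option F.support => o.elim (0 : K) fun a => F.coeff a,
      fun o : Option F.support => o.elim (1 : K) fun _ => 0] p.1 p.2 with hA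
  refine ⟨totalWeight K * Real.log (Nat.card (Option F.support)) + logHeight A,
    fun z X hX hz => ?_⟩
  set y : Option F.support → ℤ := fun o => o.elim 1 fun a => ∏ i, z i ^ (a : σ →₀ ℕ) i with hy
  have h1 := logHeight_linearMap_apply_le A (fun o => (y o : K))
  have h2 : (fun j => ∑ i, A (j, i) * (y i : K)) =
      ![MvPolynomial.eval (fun i => (z i : K)) F, 1] := by
    funext j
    fin_cases j
    · simp only [hA, hy, Fin.zero_eta, Matrix.cons_val_zero, Fintype.sum_option, Option.elim_none,
        zero_mul, Option.elim_some, zero_add]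
      rw [MvPolynomial.eval_eq', ← Finset.sum_coe_sort F.support
        (fun a => MvPolynomial.coeff a F * ∏ i, (z i : K) ^ a i)]
      refine Finset.sum_congr rfl fun a _ => ?_
      push_cast
      rfl
    · simp [hA, hy, Fintype.sum_option]
  rw [h2, ← logHeight₁_eq_logHeight] at h1
  have h3 : logHeight (fun o => (y o : K)) ≤ (totalWeight K : ℝ) * Real.log (X ^ e) := by
    refine logHeight_int_le y (one_le_pow₀ hX) (fun o => ?_) none (by simp [hy])
    rcases o with _ | a
    · simpa [hy] using one_le_pow₀ hX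
    · simp only [hy, Option.elim_some]
      push_cast
      rw [Finset.abs_prod]
      calc ∏ i, |(z i : ℝ) ^ (a : σ →₀ ℕ) i| ≤ ∏ i, X ^ (a : σ →₀ ℕ) i := by
            refine Finset.prod_le_prod (fun i _ => abs_nonneg _) fun i _ => ?_
            rw [abs_pow]
            exact pow_le_pow_left₀ (abs_nonneg _) (hz i) _
        _ = X ^ (∑ i, (a : σ →₀ ℕ) i) := Finset.prod_pow_eq_pow_sum _ _ _
        _ ≤ X ^ e := by
            refine pow_le_pow_right₀ hX ?_
            have := MvPolynomial.le_totalDegree a.2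
            rw [Finsupp.sum_fintype _ _ fun _ => rfl] at this
            exact this.trans hF
  rw [Real.log_pow] at h3
  linarith

end Pool.Agent.N698.VT
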