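import Pool.Agent.N698.VT.Ex
import Pool.Agent.Cov.PNT

set_option autoImplicit false

/-!
Asymptotics, from the prime number theorem.
-/

namespace Pool.Agent.N698.VT

open Filter Topology Real Finset

theorem gap {η : ℝ} (hη : 0 < η) (hη1 : η < 1) : ∀ᶠ x : ℝ in atTop,
    (1 - η) * (x / Real.log x) ≤
      (Nat.primeCounting ⌊x⌋₊ : ℝ) * Real.log x - Chebyshev.theta x := by
  have h0 : ∀ᶠ x : ℝ in atTop, (1 - η / 2) < Chebyshev.theta x / x :=
    Pool.Agent.Cov.PNT.theta_div_tendsto.eventually (lt_mem_nhds (by linarith))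
  obtain ⟨T, hT⟩ := eventually_atTop.1 h0
  set t0 := max T 2 with ht0
  have ht2 : 2 ≤ t0 := le_max_right _ _
  have hTt : T ≤ t0 := le_max_left _ _
  filter_upwards [eventually_ge_atTop t0, eventually_ge_atTop (2 * t0 / η)] with x hx hx2
  have hx2' : 2 ≤ x := ht2.trans hx
  have hlog : 0 < Real.log x := Real.log_pos (by linarith)
  rw [Chebyshev.primeCounting_eq_theta_div_log_add_integral hx2']
  have hint := Chebyshev.integrableOn_theta_div_id_mul_log_sq x
  have hi1 : IntervalIntegrable (fun t => Chebyshev.theta t / (t * Real.log t ^ 2))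
      MeasureTheory.volume 2 t0 := by
    rw [intervalIntegrable_iff_integrableOn_Icc_of_le ht2]
    exact hint.mono_set (Set.Icc_subset_Icc le_rfl hx)
  have hi2 : IntervalIntegrable (fun t => Chebyshev.theta t / (t * Real.log t ^ 2))
      MeasureTheory.volume t0 x := by
    rw [intervalIntegrable_iff_integrableOn_Icc_of_le hx]
    exact hint.mono_set (Set.Icc_subset_Icc ht2 le_rfl)
  have h1 : 0 ≤ ∫ t in (2 : ℝ)..t0, Chebyshev.theta t / (t * Real.log t ^ 2) := by
    refine intervalIntegral.integral_nonneg ht2 fun t ht => ?_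
    have : 0 < t := by linarith [ht.1]
    exact div_nonneg (Chebyshev.theta_nonneg t) (by positivity)
  have h2 : (x - t0) * ((1 - η / 2) / Real.log x ^ 2) ≤
      ∫ t in t0..x, Chebyshev.theta t / (t * Real.log t ^ 2) := by
    have h3 : ∫ t in t0..x, ((1 - η / 2) / Real.log x ^ 2) =
        (x - t0) * ((1 - η / 2) / Real.log x ^ 2) := by
      rw [intervalIntegral.integral_const, smul_eq_mul]
    rw [← h3]
    refine intervalIntegral.integral_mono_on hx intervalIntegrable_const hi2 fun t ht => ?_
    have htT : T ≤ t := hTt.trans ht.1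
    have ht2' : 2 ≤ t := ht2.trans ht.1
    have ht0' : 0 < t := by linarith
    have hlt : 0 < Real.log t := Real.log_pos (by linarith)
    have hle : Real.log t ≤ Real.log x := Real.log_le_log ht0' ht.2
    have h4 := hT t htT
    rw [lt_div_iff₀ ht0'] at h4
    calc (1 - η / 2) / Real.log x ^ 2 ≤ (1 - η / 2) / Real.log t ^ 2 :=
          div_le_div_of_nonneg_left (by linarith) (by positivity)
            (pow_le_pow_left₀ hlt.le hle 2)
      _ = ((1 - η / 2) * t) / (t * Real.log t ^ 2) := by field_simp
      _ ≤ _ := div_le_div_of_nonneg_right h4.le (by positivity)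
  rw [← intervalIntegral.integral_add_adjacent_intervals hi1 hi2]
  set I1 := ∫ t in (2 : ℝ)..t0, Chebyshev.theta t / (t * Real.log t ^ 2)
  set I2 := ∫ t in t0..x, Chebyshev.theta t / (t * Real.log t ^ 2)
  have h5 : (Chebyshev.theta x / Real.log x + (I1 + I2)) * Real.log x - Chebyshev.theta x =
      (I1 + I2) * Real.log x := by
    field_simp
    ring
  rw [h5]
  have h6 : (x - t0) * ((1 - η / 2) / Real.log x ^ 2) * Real.log x ≤ (I1 + I2) * Real.log x :=
    mul_le_mul_of_nonneg_right (by linarith) hlog.le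
  refine le_trans ?_ h6
  have h7 : (x - t0) * ((1 - η / 2) / Real.log x ^ 2) * Real.log x =
      ((x - t0) * (1 - η / 2)) / Real.log x := by field_simp
  rw [h7, mul_div_assoc']
  refine div_le_div_of_nonneg_right ?_ hlog.le
  rw [div_le_iff₀ hη] at hx2
  nlinarith

theorem log_factorial_le (s : ℕ) (hs : 1 ≤ s) :
    Real.log (s.factorial : ℝ) ≤ s * Real.log s - s + Real.log s + 1 := by
  induction s, hs using Nat.le_induction with
  | base => simp
  | succ s hs ih =>
    have hs0 : (0 : ℝ) < s := by exact_mod_cast hs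
    rw [Nat.factorial_succ]
    push_cast
    rw [Real.log_mul (by positivity) (by positivity)]
    have h1 : 1 / ((s : ℝ) + 1) ≤ Real.log ((s + 1) / s) := by
      have h2 := Real.one_sub_inv_le_log_of_pos (show (0 : ℝ) < (s + 1) / s by positivity)
      refine le_trans (le_of_eq ?_) h2
      field_simp
      ring
    rw [Real.log_div (by positivity) hs0.ne', div_le_iff₀ (by positivity)] at h1
    nlinarith

theorem card_oddP {y : ℕ} (hy : 2 ≤ y) : ((oddP y).card : ℝ) = Nat.primeCounting y - 1 := by
  have h2 : 2 ∈ Nat.primesLE y := Nat.mem_primesLE.2 ⟨hy, Nat.prime_two⟩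
  have h1 := Finset.card_erase_add_one h2
  rw [Nat.primesLE_card_eq_primeCounting] at h1
  have : ((oddP y).card : ℝ) + 1 = Nat.primeCounting y := by exact_mod_cast h1
  linarith

theorem log_card_U (y : ℕ) {h : ℝ} (hh : 0 < h) (hs : 1 ≤ (oddP y).card) :
    (oddP y).card * Real.log h ≤ Real.log (U (oddP y) h).card +
      ((oddP y).card * Real.log (oddP y).card - (oddP y).card + Real.log (oddP y).card + 1) +
      (oddP y).card * Real.log (Real.log y) := by
  have hlp : ∀ p ∈ oddP y, 1 < Real.log p := by
    intro p hp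
    obtain ⟨h2, hpp, _⟩ := mem_oddP.1 hp
    have h3 : 3 ≤ p := by
      have := hpp.two_le
      omega
    have h4 : Real.log 3 ≤ Real.log p := Real.log_le_log (by norm_num) (by exact_mod_cast h3)
    have h5 : 1 < Real.log 3 := by
      rw [Real.lt_log_iff_exp_lt (by norm_num)]
      exact Real.exp_one_lt_three
    linarith
  have h1 := card_U_ge (oddP y) (fun p hp => (mem_oddP.1 hp).2.1) h hh.le
  have hprod : 0 < ∏ p ∈ oddP y, Real.log p :=
    Finset.prod_pos fun p hp => by linarith [hlp p hp]
  have hpow : 0 < h ^ (oddP y).card := pow_pos hh _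
  have hU : (0 : ℝ) < (U (oddP y) h).card := by
    by_contra hcon
    have h0 : ((U (oddP y) h).card : ℝ) = 0 := le_antisymm (not_lt.1 hcon) (Nat.cast_nonneg _)
    rw [h0, zero_mul] at h1
    linarith
  have h2 := Real.log_le_log hpow h1
  rw [Real.log_pow, Real.log_mul hU.ne' (by positivity), Real.log_mul (by positivity) hprod.ne',
    Real.log_prod fun p hp => by linarith [hlp p hp]] at h2
  have h3 : ∑ p ∈ oddP y, Real.log (Real.log p) ≤ (oddP y).card * Real.log (Real.log y) := by
    rw [← nsmul_eq_mul]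
    refine Finset.sum_le_card_nsmul _ _ _ fun p hp => ?_
    refine Real.log_le_log (by linarith [hlp p hp]) (Real.log_le_log ?_ ?_)
    · exact_mod_cast (mem_oddP.1 hp).2.1.pos
    · exact_mod_cast (mem_oddP.1 hp).2.2
  have h4 := log_factorial_le _ hs
  linarith

theorem asym {c : ℝ} (hc : c < 2) : ∃ η : ℝ, 0 < η ∧ η < 1 ∧ ∀ᶠ y : ℕ in atTop, ∀ h : ℝ,
    Real.exp (-η) * (y : ℝ) ^ 2 ≤ h →
      c * (y / Real.log y) + Real.log (primorial y) ≤ Real.log (U (oddP y) h).card := by
  set η : ℝ := min ((2 - c) / 8) (1 / 8) with hηd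
  have hη0 : 0 < η := lt_min (by linarith) (by norm_num)
  have hη1 : η ≤ 1 / 8 := min_le_right _ _
  have hηc : 8 * η ≤ 2 - c := by
    have := min_le_left ((2 - c) / 8) (1 / 8)
    linarith
  refine ⟨η, hη0, by linarith, ?_⟩
  have hcast : Tendsto (fun y : ℕ => (y : ℝ)) atTop atTop := tendsto_natCast_atTop_atTop
  have h1 := (hcast.eventually (gap hη0 (by linarith)))
  have h2 := hcast.eventually (Pool.Agent.Cov.PNT.pi_tendsto.eventually
    (lt_mem_nhds (show 1 - η / 2 < (1 : ℝ) by linarith)))
  have h3 := hcast.eventually (Pool.Agent.Cov.PNT.pi_tendsto.eventually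
    (gt_mem_nhds (show (1 : ℝ) < 1 + η by linarith)))
  have h4 : ∀ᶠ x : ℝ in atTop, 2 * Real.log x + 4 ≤ (η / 2) * (x / Real.log x) := by
    have e1 : Tendsto (fun x : ℝ => Real.log x ^ 2 / x) atTop (𝓝 0) := by
      have := isLittleO_pow_log_id_atTop (n := 2)
      exact this.tendsto_div_nhds_zero
    have e2 := e1.eventually (gt_mem_nhds (show (0 : ℝ) < η / 16 by linarith))
    filter_upwards [e2, eventually_gt_atTop 0,
      Real.tendsto_log_atTop.eventually_ge_atTop 4] with x hx hx0 hx4
    rw [div_lt_iff₀ hx0] at hx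
    rw [mul_div_assoc', le_div_iff₀ (by linarith)]
    nlinarith
  filter_upwards [h1, h2, h3, hcast.eventually h4, eventually_ge_atTop 3] with
    y hg hlo hhi hsm hy3 h hh
  have hyR : (3 : ℝ) ≤ y := by exact_mod_cast hy3
  have hy0 : (0 : ℝ) < y := by linarith
  rw [Nat.floor_natCast] at hg hlo hhi
  have hth : Chebyshev.theta (y : ℝ) = Real.log (primorial y) := by
    rw [Chebyshev.theta_eq_log_primorial, Nat.floor_natCast]
  rw [hth] at hg
  have hly : 0 < Real.log y := Real.log_pos (by linarith)
  set Y : ℝ := y / Real.log y with hY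
  have hYpos : 0 < Y := by positivity
  have hyY : (y : ℝ) = Y * Real.log y := by rw [hY]; field_simp
  have hcard := card_oddP (by omega : 2 ≤ y)
  set s : ℝ := ((oddP y).card : ℝ) with hs
  set P : ℝ := (Nat.primeCounting y : ℝ) with hP
  have hlo' : (1 - η / 2) * Y ≤ P := by
    rw [lt_div_iff₀ hy0] at hlo
    have : (1 - η / 2) * (Y * Real.log y) < P * Real.log y := by rw [← hyY]; exact hlo
    have h5 : (1 - η / 2) * Y * Real.log y < P * Real.log y := by linarith
    exact (lt_of_mul_lt_mul_right h5 hly.le).le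
  have hhi' : P ≤ (1 + η) * Y := by
    rw [div_lt_iff₀ hy0] at hhi
    have : P * Real.log y < (1 + η) * (Y * Real.log y) := by rw [← hyY]; exact hhi
    have h5 : P * Real.log y < (1 + η) * Y * Real.log y := by linarith
    exact (lt_of_mul_lt_mul_right h5 hly.le).le
  have hY4 : 4 ≤ (η / 2) * Y := by linarith
  have hslo : (1 - η) * Y ≤ s := by rw [hcard]; linarith
  have hshi : s ≤ (1 + η) * Y := by rw [hcard]; linarith
  have hs1 : 1 ≤ s := by nlinarith
  have hs1' : 1 ≤ (oddP y).card := by
    have h9 : (1 : ℝ) ≤ ((oddP y).card : ℝ) := hs1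
    exact_mod_cast h9
  have hh0 : 0 < h := lt_of_lt_of_le (by positivity) hh
  have hlogh : 2 * Real.log y - η ≤ Real.log h := by
    have := Real.log_le_log (by positivity) hh
    rw [Real.log_mul (Real.exp_pos _).ne' (by positivity), Real.log_exp, Real.log_pow] at this
    push_cast at this
    linarith
  have hlogs : Real.log s ≤ η + Real.log y - Real.log (Real.log y) := by
    have e1 := Real.log_le_log (by linarith) hshi
    rw [Real.log_mul (by linarith) hYpos.ne', hY, Real.log_div hy0.ne' hly.ne'] at e1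
    have e2 := Real.log_le_sub_one_of_pos (show (0 : ℝ) < 1 + η by linarith)
    linarith
  have hll : 0 ≤ Real.log (Real.log y) := by
    refine Real.log_nonneg ?_
    have h5 : Real.log 3 ≤ Real.log y := Real.log_le_log (by norm_num) hyR
    have h6 : 1 < Real.log 3 := by
      rw [Real.lt_log_iff_exp_lt (by norm_num)]
      exact Real.exp_one_lt_three
    linarith
  have hmain := log_card_U y hh0 hs1'
  rw [← hs] at hmain
  have hs0 : 0 ≤ s := by linarith
  have m1 := mul_le_mul_of_nonneg_left hlogh hs0
  have m2 := mul_le_mul_of_nonneg_left hlogs hs0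
  -- `log |U| ≥ s log y - 2 η s + s - log s - 1`
  have k1 : s * Real.log y - 2 * η * s + s - Real.log s - 1 ≤
      Real.log (U (oddP y) h).card := by nlinarith
  have k2 : (1 - η) * Y + Real.log (primorial y) - Real.log y ≤ s * Real.log y := by
    rw [hcard]
    have : (P - 1) * Real.log y = P * Real.log y - Real.log y := by ring
    rw [this]
    linarith
  have k3 : η * s ≤ 2 * η * Y := by
    have : s ≤ 2 * Y := by nlinarith
    nlinarith
  have k4 : c * Y ≤ (2 - 8 * η) * Y := mul_le_mul_of_nonneg_right (by linarith) hYpos.le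
  nlinarith

end Pool.Agent.N698.VT
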