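import Mathlib

set_option autoImplicit false

/-!
Counting the integers up to `exp h` composed of given primes.
-/

namespace Pool.Agent.N698.VT

open Finset

/-- the positive integers up to `exp h` composed of primes in `P` -/
noncomputable def U (P : Finset ℕ) (h : ℝ) : Finset ℕ :=
  (Finset.range (⌊Real.exp h⌋₊ + 1)).filter fun u => u ≠ 0 ∧ u.primeFactors ⊆ P

theorem mem_U {P : Finset ℕ} {h : ℝ} {u : ℕ} :
    u ∈ U P h ↔ u ≠ 0 ∧ (u : ℝ) ≤ Real.exp h ∧ u.primeFactors ⊆ P := by
  unfold U
  rw [Finset.mem_filter, Finset.mem_range, Nat.lt_succ_iff, Nat.le_floor_iff (Real.exp_pos h).le]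
  tauto

theorem pow_sub_pow_le {x y : ℝ} (hy : 0 ≤ y) (hyx : y ≤ x) (s : ℕ) :
    x ^ (s + 1) - y ^ (s + 1) ≤ (s + 1) * (x - y) * x ^ s := by
  induction s with
  | zero => simp
  | succ s ih =>
    have hx : 0 ≤ x := hy.trans hyx
    have h1 : y ^ (s + 1) ≤ x ^ (s + 1) := pow_le_pow_left₀ hy hyx _
    have h2 : x ^ (s + 1 + 1) - y ^ (s + 1 + 1) =
        x * (x ^ (s + 1) - y ^ (s + 1)) + (x - y) * y ^ (s + 1) := by ring
    rw [h2]
    have h3 := mul_le_mul_of_nonneg_left ih hx
    have h4 := mul_le_mul_of_nonneg_left h1 (sub_nonneg.2 hyx)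
    push_cast
    calc _ ≤ x * ((s + 1) * (x - y) * x ^ s) + (x - y) * x ^ (s + 1) := add_le_add h3 h4
      _ = _ := by ring

theorem sum_pow_ge {a h : ℝ} (ha : 0 < a) (hh : 0 ≤ h) (s : ℕ) :
    h ^ (s + 1) ≤ (s + 1) * a * ∑ e ∈ Finset.range (⌊h / a⌋₊ + 1), (h - e * a) ^ s := by
  have key : ∀ e ∈ Finset.range (⌊h / a⌋₊ + 1),
      (max (h - e * a) 0) ^ (s + 1) - (max (h - (e + 1 : ℕ) * a) 0) ^ (s + 1) ≤
        (s + 1) * a * (h - e * a) ^ s := by
    intro e he
    have he1 : (e : ℝ) * a ≤ h := by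
      have h1 : e ≤ ⌊h / a⌋₊ := Nat.lt_succ_iff.1 (Finset.mem_range.1 he)
      have h2 := (Nat.le_floor_iff (div_nonneg hh ha.le)).1 h1
      rwa [le_div_iff₀ ha] at h2
    have h0 : max (h - e * a) 0 = h - e * a := max_eq_left (by linarith)
    rw [h0]
    have hx : 0 ≤ h - e * a := by linarith
    have hy : 0 ≤ max (h - (e + 1 : ℕ) * a) 0 := le_max_right _ _
    have hyx : max (h - (e + 1 : ℕ) * a) 0 ≤ h - e * a := by
      refine max_le ?_ hx
      push_cast
      linarith
    refine (pow_sub_pow_le hy hyx s).trans ?_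
    refine mul_le_mul_of_nonneg_right ?_ (pow_nonneg hx s)
    refine mul_le_mul_of_nonneg_left ?_ (by positivity)
    have := le_max_left (h - (e + 1 : ℕ) * a) 0
    push_cast at this
    push_cast
    linarith
  have hs := Finset.sum_le_sum key
  rw [Finset.sum_range_sub' (fun e : ℕ => (max (h - e * a) 0) ^ (s + 1)), ← Finset.mul_sum] at hs
  have h1 : max (h - ((⌊h / a⌋₊ + 1 : ℕ) : ℝ) * a) 0 = 0 := by
    refine max_eq_right ?_
    have h2 := Nat.lt_floor_add_one (h / a)
    rw [div_lt_iff₀ ha] at h2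
    push_cast
    linarith
  rw [h1, zero_pow (Nat.succ_ne_zero s), sub_zero, Nat.cast_zero, zero_mul, sub_zero,
    max_eq_left hh] at hs
  exact hs

theorem card_U_ge (P : Finset ℕ) (hP : ∀ p ∈ P, p.Prime) :
    ∀ h : ℝ, 0 ≤ h → h ^ P.card ≤ (U P h).card * (P.card.factorial * ∏ p ∈ P, Real.log p) := by
  classical
  induction P using Finset.induction_on with
  | empty =>
    intro h hh
    have h1 : 1 ≤ (U ∅ h).card := by
      refine Finset.card_pos.2 ⟨1, mem_U.2 ⟨one_ne_zero, ?_, by simp⟩⟩
      simpa using Real.one_le_exp hh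
    simpa using (by exact_mod_cast h1 : (1 : ℝ) ≤ ((U ∅ h).card : ℝ))
  | insert p P hp ih =>
    intro h hh
    have hpp : p.Prime := hP p (Finset.mem_insert_self p P)
    have ih' := ih fun q hq => hP q (Finset.mem_insert_of_mem hq)
    set a := Real.log p with ha
    have ha0 : 0 < a := Real.log_pos (by exact_mod_cast hpp.one_lt)
    set T := (Finset.range (⌊h / a⌋₊ + 1)).sigma fun e => U P (h - e * a) with hT
    have hexp : ∀ e : ℕ, Real.exp (e * a) = (p : ℝ) ^ e := by
      intro e
      rw [Real.exp_nat_mul, ha, Real.exp_log (by exact_mod_cast hpp.pos)]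
    have hcard : T.card ≤ (U (insert p P) h).card := by
      refine Finset.card_le_card_of_injOn (fun x => p ^ x.1 * x.2) ?_ ?_
      · rintro ⟨e, u⟩ hx
        rw [Finset.mem_coe, hT, Finset.mem_sigma] at hx
        obtain ⟨_, hu⟩ := hx
        rw [mem_U] at hu
        obtain ⟨hu0, hule, huP⟩ := hu
        rw [Finset.mem_coe, mem_U]
        refine ⟨mul_ne_zero (pow_ne_zero _ hpp.ne_zero) hu0, ?_, ?_⟩
        · push_cast
          have : Real.exp h = Real.exp (e * a) * Real.exp (h - e * a) := by
            rw [← Real.exp_add]; congr 1; ring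
          rw [this, hexp]
          exact mul_le_mul_of_nonneg_left hule (by positivity)
        · rw [Nat.primeFactors_mul (pow_ne_zero _ hpp.ne_zero) hu0]
          refine Finset.union_subset ?_ (huP.trans (Finset.subset_insert _ _))
          intro q hq
          have hq1 := Nat.prime_of_mem_primeFactors hq
          have hq2 := hq1.dvd_of_dvd_pow (Nat.dvd_of_mem_primeFactors hq)
          rw [(Nat.prime_dvd_prime_iff_eq hq1 hpp).1 hq2]
          exact Finset.mem_insert_self _ _
      · rintro ⟨e, u⟩ hx ⟨e', u'⟩ hx' heq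
        rw [Finset.mem_coe, hT, Finset.mem_sigma] at hx hx'
        have hu := mem_U.1 hx.2
        have hu' := mem_U.1 hx'.2
        simp only at heq hu hu'
        have hnd : ∀ v : ℕ, v ≠ 0 → v.primeFactors ⊆ P → ¬ p ∣ v := by
          intro v hv hvP hdvd
          exact hp (hvP (Nat.mem_primeFactors.2 ⟨hpp, hdvd, hv⟩))
        have h1 : (p ^ e * u).factorization p = e := by
          rw [Nat.factorization_mul (pow_ne_zero _ hpp.ne_zero) hu.1, Finsupp.add_apply,
            hpp.factorization_pow, Finsupp.single_eq_same,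
            Nat.factorization_eq_zero_of_not_dvd (hnd u hu.1 hu.2.2), add_zero]
        have h2 : (p ^ e' * u').factorization p = e' := by
          rw [Nat.factorization_mul (pow_ne_zero _ hpp.ne_zero) hu'.1, Finsupp.add_apply,
            hpp.factorization_pow, Finsupp.single_eq_same,
            Nat.factorization_eq_zero_of_not_dvd (hnd u' hu'.1 hu'.2.2), add_zero]
        have hee : e = e' := by rw [← h1, ← h2, heq]
        subst hee
        have := Nat.eq_of_mul_eq_mul_left (pow_pos hpp.pos e) heq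
        rw [this]
    rw [hT, Finset.card_sigma] at hcard
    rw [Finset.card_insert_of_notMem hp, Finset.prod_insert hp, Nat.factorial_succ]
    have hW : 0 ≤ ∏ q ∈ P, Real.log q := Finset.prod_nonneg fun q _ => Real.log_natCast_nonneg q
    calc h ^ (P.card + 1) ≤ (P.card + 1) * a *
          ∑ e ∈ Finset.range (⌊h / a⌋₊ + 1), (h - e * a) ^ P.card := sum_pow_ge ha0 hh _
      _ ≤ (P.card + 1) * a * ∑ e ∈ Finset.range (⌊h / a⌋₊ + 1),
          ((U P (h - e * a)).card * (P.card.factorial * ∏ q ∈ P, Real.log q)) := by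
        refine mul_le_mul_of_nonneg_left (Finset.sum_le_sum fun e he => ih' _ ?_) (by positivity)
        have h1 : e ≤ ⌊h / a⌋₊ := Nat.lt_succ_iff.1 (Finset.mem_range.1 he)
        have h2 := (Nat.le_floor_iff (div_nonneg hh ha0.le)).1 h1
        rw [le_div_iff₀ ha0] at h2
        linarith
      _ = (∑ e ∈ Finset.range (⌊h / a⌋₊ + 1), ((U P (h - e * a)).card : ℝ)) *
          (((P.card + 1) * P.card.factorial) * (a * ∏ q ∈ P, Real.log q)) := by
        rw [← Finset.sum_mul]; ring
      _ ≤ ((U (insert p P) h).card : ℝ) *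
          (((P.card + 1) * P.card.factorial) * (a * ∏ q ∈ P, Real.log q)) := by
        refine mul_le_mul_of_nonneg_right ?_ (by positivity)
        exact_mod_cast hcard
      _ = _ := by push_cast; ring

end Pool.Agent.N698.VT
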