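import Pool.Agent.N698.VT.Ar

set_option autoImplicit false

/-!
Coordinates adapted to `n + 2` hyperplanes in general position; the truncated counting function.
-/

namespace Pool.Agent.N698.VT

open NumberField IsDedekindDomain Height Finset Pool.Agent.W231.V

section basis

variable {K : Type*} [Field K]

/-- Adapted coordinates. -/
structure Adapted {n : ℕ} (L : Fin (n + 2) → Fin (n + 1) → K) (A : Fin (n + 1) → Fin (n + 1) → K)
    (c : Fin (n + 1) → K) : Prop where
  c_ne : ∀ k, c k ≠ 0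
  dual : ∀ k l, ∑ j, L (Fin.castSucc k) j * A l j = if k = l then (c k)⁻¹ else 0
  last : ∀ l, ∑ j, L (Fin.last _) j * A l j = 1
  inv : ∀ i j, ∑ l, A l i * (c l * L (Fin.castSucc l) j) = if i = j then 1 else 0

theorem exists_adapted {n : ℕ} (L : Fin (n + 2) → Fin (n + 1) → K)
    (hgp : ∀ I : Finset (Fin (n + 2)), I.card = n + 1 → LinearIndependent K (fun i : I => L i)) :
    ∃ A c, Adapted L A c := by
  classical
  obtain ⟨f, hf1, hf2⟩ := exists_dual L hgp Fin.castSuccEmb
  set c : Fin (n + 1) → K := fun l => ∑ j, L (Fin.last _) j * f l j with hc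
  have hc0 : ∀ l, c l ≠ 0 := hf2 (Fin.last _) fun k => (Fin.castSucc_lt_last k).ne
  set A : Fin (n + 1) → Fin (n + 1) → K := fun l j => (c l)⁻¹ * f l j with hA
  have hdual : ∀ k l, ∑ j, L (Fin.castSucc k) j * A l j = if k = l then (c k)⁻¹ else 0 := by
    intro k l
    have h1 : ∑ j, L (Fin.castSucc k) j * A l j = (c l)⁻¹ * ∑ j, L (Fin.castSucc k) j * f l j := by
      rw [Finset.mul_sum]
      exact Finset.sum_congr rfl fun j _ => by rw [hA]; ring
    have h2 := hf1 k l
    change ∑ j, L (Fin.castSucc k) j * f l j = _ at h2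
    rw [h1, h2]
    split_ifs with h
    · rw [h, mul_one]
    · rw [mul_zero]
  refine ⟨A, c, hc0, hdual, fun l => ?_, ?_⟩
  · have h1 : ∑ j, L (Fin.last _) j * A l j = (c l)⁻¹ * c l := by
      rw [hc, Finset.mul_sum]
      exact Finset.sum_congr rfl fun j _ => by rw [hA]; ring
    rw [h1, inv_mul_cancel₀ (hc0 l)]
  · set M : Matrix (Fin (n + 1)) (Fin (n + 1)) K := fun k j => c k * L (Fin.castSucc k) j with hM
    set B : Matrix (Fin (n + 1)) (Fin (n + 1)) K := fun j l => A l j with hB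
    have h1 : M * B = 1 := by
      ext k l
      rw [Matrix.mul_apply, Matrix.one_apply]
      have : ∑ j, M k j * B j l = c k * ∑ j, L (Fin.castSucc k) j * A l j := by
        rw [Finset.mul_sum]
        exact Finset.sum_congr rfl fun j _ => by rw [hM, hB]; ring
      rw [this, hdual]
      split_ifs with h
      · rw [mul_inv_cancel₀ (hc0 k)]
      · rw [mul_zero]
    have h2 : B * M = 1 := mul_eq_one_comm.1 h1
    intro i j
    have h3 := congrFun (congrFun h2 i) j
    rw [Matrix.mul_apply, Matrix.one_apply] at h3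
    exact h3

/-- the point with the coordinates `z` -/
def pnt {n : ℕ} (A : Fin (n + 1) → Fin (n + 1) → K) (z : Fin (n + 1) → K) (j : Fin (n + 1)) : K :=
  ∑ l, z l * A l j

variable {n : ℕ} {L : Fin (n + 2) → Fin (n + 1) → K} {A : Fin (n + 1) → Fin (n + 1) → K}
  {c : Fin (n + 1) → K}

theorem Adapted.castSucc (h : Adapted L A c) (z : Fin (n + 1) → K) (k : Fin (n + 1)) :
    ∑ j, L (Fin.castSucc k) j * pnt A z j = (c k)⁻¹ * z k := by
  unfold pnt
  simp only [Finset.mul_sum]
  rw [Finset.sum_comm]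
  have h1 : ∀ l, ∑ j, L (Fin.castSucc k) j * (z l * A l j) =
      z l * (if k = l then (c k)⁻¹ else 0) := by
    intro l
    rw [← h.dual k l, Finset.mul_sum]
    exact Finset.sum_congr rfl fun j _ => by ring
  rw [Finset.sum_congr rfl fun l _ => h1 l]
  simp [mul_comm]

theorem Adapted.sum_last (h : Adapted L A c) (z : Fin (n + 1) → K) :
    ∑ j, L (Fin.last _) j * pnt A z j = ∑ l, z l := by
  unfold pnt
  simp only [Finset.mul_sum]
  rw [Finset.sum_comm]
  refine Finset.sum_congr rfl fun l _ => ?_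
  have h1 : ∑ j, L (Fin.last _) j * (z l * A l j) = z l * ∑ j, L (Fin.last _) j * A l j := by
    rw [Finset.mul_sum]
    exact Finset.sum_congr rfl fun j _ => by ring
  rw [h1, h.last, mul_one]

end basis

variable {K : Type*} [Field K] [NumberField K]

lemma fv_sum_le (v : HeightOneSpectrum (𝓞 K)) {ι : Type*} (s : Finset ι) (f : ι → K)
    (h : ∀ i ∈ s, fv v (f i) ≤ 1) : fv v (∑ i ∈ s, f i) ≤ 1 := by
  classical
  induction s using Finset.induction_on with
  | empty => simp
  | insert a s ha ih =>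
    rw [Finset.sum_insert ha]
    exact (fv_na v _ _).trans (max_le (h a (Finset.mem_insert_self _ _))
      (ih fun i hi => h i (Finset.mem_insert_of_mem hi)))

/-- the local condition at `v` -/
def Cond {n t : ℕ} (L : Fin (n + 2) → Fin (n + 1) → K)
    (F : Fin t → MvPolynomial (Fin (n + 1)) K) (e : Fin t → ℕ) (x : Fin (n + 1) → K)
    (v : HeightOneSpectrum (𝓞 K)) : Prop :=
  (∃ i, fv v (∑ j, L i j * x j) < (⨆ j, fv v (L i j)) * ⨆ j, fv v (x j)) ∨
  ∃ j, fv v (MvPolynomial.eval x (F j)) <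
    (⨆ a : (F j).support, fv v ((F j).coeff a)) * (⨆ i, fv v (x i)) ^ e j

theorem eval_bind {σ τ R : Type*} [CommRing R] (f : σ → MvPolynomial τ R) (p : MvPolynomial σ R)
    (z : τ → R) : MvPolynomial.eval z (MvPolynomial.bind₁ f p) =
      MvPolynomial.eval (fun i => MvPolynomial.eval z (f i)) p :=
  MvPolynomial.eval₂Hom_bind₁ _ _ _ _

/-- the linear forms of the coordinates -/
noncomputable def lin {R : Type*} [CommRing R] {n : ℕ} (A : Fin (n + 1) → Fin (n + 1) → R)
    (j : Fin (n + 1)) : MvPolynomial (Fin (n + 1)) R :=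
  ∑ l, MvPolynomial.C (A l j) * MvPolynomial.X l

theorem lin_hom {R : Type*} [CommRing R] {n : ℕ} (A : Fin (n + 1) → Fin (n + 1) → R)
    (j : Fin (n + 1)) : (lin A j).IsHomogeneous 1 :=
  MvPolynomial.IsHomogeneous.sum _ _ _ fun _ _ => MvPolynomial.isHomogeneous_C_mul_X _ _

theorem lin_eval {R : Type*} [Field R] {n : ℕ} (A : Fin (n + 1) → Fin (n + 1) → R)
    (z : Fin (n + 1) → R) (j : Fin (n + 1)) : MvPolynomial.eval z (lin A j) = pnt A z j := by
  simp [lin, pnt, mul_comm]

theorem arith {n t : ℕ} {L : Fin (n + 2) → Fin (n + 1) → K} {A : Fin (n + 1) → Fin (n + 1) → K}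
    {c : Fin (n + 1) → K} (hAd : Adapted L A c) (F : Fin t → MvPolynomial (Fin (n + 1)) K)
    (e : Fin t → ℕ) (hF : ∀ j, (F j).IsHomogeneous (e j)) :
    ∃ C : ℝ, 0 ≤ C ∧ ∀ (z a : Fin (n + 1) → ℤ) (y m : ℕ) (w : ℤ) (X : ℝ), 2 ≤ y →
      (∀ i, z i ≠ 0) → (∀ i, ∀ p : ℕ, p.Prime → (p : ℤ) ∣ z i → p ≤ y) →
      ∑ i, z i = 2 ^ m * w → w ≠ 0 → ∑ i, a i * z i = 1 → (∀ i, |(z i : ℝ)| ≤ X) →
      (∃ i, |(z i : ℝ)| = X) →
      (∀ j, MvPolynomial.eval (pnt A fun i => (z i : K)) (F j) ≠ 0) →
      (∀ i, ∑ j, L i j * pnt A (fun i => (z i : K)) j ≠ 0) ∧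
      (totalWeight K : ℝ) * Real.log X ≤ logHeight (pnt A fun i => (z i : K)) + C ∧
      logHeight (pnt A fun i => (z i : K)) ≤ (totalWeight K : ℝ) * Real.log X + C ∧
      {v | Cond L F e (pnt A fun i => (z i : K)) v}.Finite ∧
      ∀ T : Finset (HeightOneSpectrum (𝓞 K)),
        (∀ v ∈ T, Cond L F e (pnt A fun i => (z i : K)) v) →
        ∑ v ∈ T, ell v ≤ (totalWeight K : ℝ) * (Real.log (primorial y) +
          (Real.log X - m * Real.log 2) + (∑ j, (e j : ℝ)) * Real.log X) + C := by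
  classical
  -- the bad primes
  set cs : Finset K := (Finset.univ.image fun p : Fin (n + 2) × Fin (n + 1) => L p.1 p.2) ∪
    (Finset.univ.image fun p : Fin (n + 1) × Fin (n + 1) => A p.1 p.2) ∪
    Finset.univ.image c ∪ Finset.univ.biUnion (fun j => (F j).support.image fun a => (F j).coeff a)
    with hcs
  have hbadfin : {v : HeightOneSpectrum (𝓞 K) | ∃ x ∈ cs, x ≠ 0 ∧ fv v x ≠ 1}.Finite := by
    have : {v : HeightOneSpectrum (𝓞 K) | ∃ x ∈ cs, x ≠ 0 ∧ fv v x ≠ 1} ⊆
        ⋃ x ∈ cs.filter (fun x => x ≠ 0), {v : HeightOneSpectrum (𝓞 K) | fv v x ≠ 1} := by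
      rintro v ⟨x, hx, hx0, hx1⟩
      simp only [Set.mem_iUnion, Finset.mem_filter]
      exact ⟨x, ⟨hx, hx0⟩, hx1⟩
    refine Set.Finite.subset (Set.Finite.biUnion (Finset.finite_toSet _) fun x hx => ?_) this
    exact fv_support_finite (Finset.mem_filter.1 (Finset.mem_coe.1 hx)).2
  set T0 : Finset (HeightOneSpectrum (𝓞 K)) := hbadfin.toFinset with hT0
  have hgood : ∀ v ∉ T0, ∀ x ∈ cs, x ≠ 0 → fv v x = 1 := by
    intro v hv x hx hx0
    by_contra h
    exact hv (hbadfin.mem_toFinset.2 ⟨x, hx, hx0, h⟩)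
  have hgood' : ∀ v ∉ T0, ∀ x ∈ cs, fv v x ≤ 1 := by
    intro v hv x hx
    by_cases hx0 : x = 0
    · rw [hx0, map_zero]; exact zero_le_one
    · exact (hgood v hv x hx hx0).le
  have hmemL : ∀ i j, L i j ∈ cs := by
    intro i j
    rw [hcs]
    simp only [Finset.mem_union, Finset.mem_image, Finset.mem_univ, true_and]
    left; left; left
    exact ⟨(i, j), rfl⟩
  have hmemA : ∀ i j, A i j ∈ cs := by
    intro i j
    rw [hcs]
    simp only [Finset.mem_union, Finset.mem_image, Finset.mem_univ, true_and]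
    left; left; right
    exact ⟨(i, j), rfl⟩
  have hmemc : ∀ i, c i ∈ cs := by
    intro i
    rw [hcs]
    simp only [Finset.mem_union, Finset.mem_image, Finset.mem_univ, true_and]
    left; right
    exact ⟨i, rfl⟩
  have hmemF : ∀ j, ∀ a ∈ (F j).support, (F j).coeff a ∈ cs := by
    intro j a ha
    rw [hcs]
    refine Finset.mem_union_right _ (Finset.mem_biUnion.2 ⟨j, Finset.mem_univ _, ?_⟩)
    exact Finset.mem_image_of_mem _ ha
  -- the constants
  choose Cj hCj using fun j : Fin t => logHeight₁_form (K := K) (MvPolynomial.bind₁ (lin A) (F j))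
    (e j) (by
      have := (hF j).aeval (lin A) (lin_hom A)
      rw [one_mul] at this
      exact this.totalDegree_le)
  set A1 : Fin (n + 1) × Fin (n + 1) → K := fun p => A p.2 p.1 with hA1
  set A2 : Fin (n + 1) × Fin (n + 1) → K := fun p => c p.1 * L (Fin.castSucc p.1) p.2 with hA2
  have hd0 : (0 : ℝ) ≤ (totalWeight K : ℝ) := Nat.cast_nonneg _
  obtain ⟨C1, hC1⟩ : ∃ C1 : ℝ, C1 = totalWeight K * Real.log (Nat.card (Fin (n + 1))) +
      logHeight A1 := ⟨_, rfl⟩
  obtain ⟨C2, hC2⟩ : ∃ C2 : ℝ, C2 = totalWeight K * Real.log (Nat.card (Fin (n + 1))) +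
      logHeight A2 := ⟨_, rfl⟩
  obtain ⟨C3, hC3⟩ : ∃ C3 : ℝ, C3 = ∑ v ∈ T0, ell v + (totalWeight K : ℝ) * Real.log (n + 1) +
      ∑ j, Cj j := ⟨_, rfl⟩
  refine ⟨|C1| + |C2| + |C3|, by positivity, ?_⟩
  intro z a y m w X hy hz0 hzp hsum hw hbez hzX hXz hFx
  have a1 := abs_nonneg C1
  have a2 := abs_nonneg C2
  have a3 := abs_nonneg C3
  have b1 := le_abs_self C1
  have b2 := le_abs_self C2
  have b3 := le_abs_self C3
  set zK : Fin (n + 1) → K := fun i => (z i : K) with hzK
  set x := pnt A zK with hx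
  have hzK0 : ∀ i, zK i ≠ 0 := fun i => Int.cast_ne_zero.2 (hz0 i)
  have hX1 : 1 ≤ X := by
    refine le_trans ?_ (hzX 0)
    exact_mod_cast Int.one_le_abs (hz0 0)
  have hX0 : 0 < X := by linarith
  have hcs' := fun k => hAd.castSucc zK k
  have hlast := hAd.sum_last zK
  have hsumK : ∑ l, zK l = 2 ^ m * (w : K) := by
    have := congrArg (Int.cast : ℤ → K) hsum
    push_cast at this
    exact this
  have hwK : (w : K) ≠ 0 := by exact_mod_cast hw
  have h2K : (2 : K) ≠ 0 := two_ne_zero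
  rw [hsumK] at hlast
  have hne : ∀ i, ∑ j, L i j * x j ≠ 0 := by
    intro i
    refine Fin.lastCases ?_ (fun k => ?_) i
    · rw [hlast]
      exact mul_ne_zero (pow_ne_zero _ h2K) hwK
    · rw [hcs']
      exact mul_ne_zero (inv_ne_zero (hAd.c_ne k)) (hzK0 k)
  -- heights
  have hup : logHeight x ≤ (totalWeight K : ℝ) * Real.log X + C1 := by
    have h1 := logHeight_linearMap_apply_le A1 zK
    have h2 : (fun j => ∑ i, A1 (j, i) * zK i) = x := by
      funext j
      rw [hx]
      unfold pnt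
      exact Finset.sum_congr rfl fun l _ => by rw [hA1]; ring
    rw [h2] at h1
    have h3 := logHeight_int_le (K := K) z hX1 hzX 0 (hz0 0)
    change logHeight zK ≤ _ at h3
    rw [hC1]
    linarith
  have hlow : (totalWeight K : ℝ) * Real.log X ≤ logHeight x + C2 := by
    have h1 := logHeight_linearMap_apply_le A2 x
    have h2 : (fun j => ∑ i, A2 (j, i) * x i) = zK := by
      funext k
      have h4 : ∑ i, A2 (k, i) * x i = c k * ∑ j, L (Fin.castSucc k) j * x j := by
        rw [Finset.mul_sum]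
        exact Finset.sum_congr rfl fun l _ => by rw [hA2]; ring
      rw [h4, hcs', ← mul_assoc, mul_inv_cancel₀ (hAd.c_ne k), one_mul]
    rw [h2] at h1
    obtain ⟨i, hi⟩ := hXz
    have h3 := logHeight_int_ge (K := K) z a hbez i (hz0 i)
    rw [hi] at h3
    change _ ≤ logHeight zK at h3
    rw [hC2]
    linarith
  -- integrality
  have hxle : ∀ v ∉ T0, ∀ j, fv v (x j) ≤ 1 := by
    intro v hv j
    rw [hx]
    refine fv_sum_le v _ _ fun l _ => ?_
    rw [map_mul]
    exact mul_le_one₀ (fv_int v _) ((fv v).nonneg _) (hgood' v hv _ (hmemA l j))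
  have hsup : ∀ v ∉ T0, ⨆ j, fv v (x j) ≤ 1 := fun v hv => ciSup_le fun j => hxle v hv j
  have hsup0 : ∀ v, 0 ≤ ⨆ j, fv v (x j) := fun v => Real.iSup_nonneg fun j => (fv v).nonneg _
  have hy2 : ∀ v : HeightOneSpectrum (𝓞 K), fv v (2 : K) < 1 →
      fv v ((primorial y : ℕ) : K) < 1 := by
    intro v hv
    have h2 : fv v ((2 : ℤ) : K) < 1 := by exact_mod_cast hv
    refine lt_primorial v two_ne_zero (fun p hp hpd => ?_) h2
    have : p ∣ 2 := by exact_mod_cast hpd
    exact (Nat.le_of_dvd two_pos this).trans hy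
  have key : ∀ v, Cond L F e x v → v ∈ T0 ∨ fv v ((primorial y : ℕ) : K) < 1 ∨
      fv v ((w.natAbs : ℕ) : K) < 1 ∨ ∃ j, fv v (MvPolynomial.eval x (F j)) < 1 := by
    intro v hv
    by_cases hv0 : v ∈ T0
    · exact Or.inl hv0
    right
    rcases hv with ⟨i, hi⟩ | ⟨j, hj⟩
    · have h1 : fv v (∑ j, L i j * x j) < 1 := by
        refine hi.trans_le (mul_le_one₀ (ciSup_le fun j => hgood' v hv0 _ (hmemL i j))
          (hsup0 v) (hsup v hv0))
      revert h1
      refine Fin.lastCases (fun h1 => ?_) (fun k h1 => ?_) i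
      · rw [hlast, map_mul, map_pow] at h1
        by_cases h2 : fv v (2 : K) < 1
        · exact Or.inl (hy2 v h2)
        · right; left
          rw [← fv_int_natAbs]
          by_contra hcon
          have := one_le_mul_of_one_le_of_one_le (one_le_pow₀ (n := m) (not_lt.1 h2))
            (not_lt.1 hcon)
          linarith
      · left
        rw [hcs', map_mul, map_inv₀, hgood v hv0 _ (hmemc k) (hAd.c_ne k), inv_one, one_mul] at h1
        exact lt_primorial v (hz0 k) (hzp k) h1
    · right; right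
      refine ⟨j, hj.trans_le (mul_le_one₀ ?_ (pow_nonneg (hsup0 v) _)
        (pow_le_one₀ (hsup0 v) (hsup v hv0)))⟩
      exact Real.iSup_le (fun a => hgood' v hv0 _ (hmemF j a a.2)) zero_le_one
  have hyK : ((primorial y : ℕ) : K) ≠ 0 := Nat.cast_ne_zero.2 (primorial_pos y).ne'
  have hwN : w.natAbs ≠ 0 := Int.natAbs_ne_zero.2 hw
  have hwK' : ((w.natAbs : ℕ) : K) ≠ 0 := Nat.cast_ne_zero.2 hwN
  refine ⟨hne, by linarith, by linarith, ?_, fun T hT => ?_⟩
  · have hfin := ((T0.finite_toSet.union (fv_support_finite hyK)).union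
      (fv_support_finite hwK')).union (Set.finite_iUnion
        fun j : Fin t => fv_support_finite (hFx j))
    refine hfin.subset fun v hv => ?_
    rcases key v hv with h | h | h | ⟨j, h⟩
    · exact Or.inl (Or.inl (Or.inl h))
    · exact Or.inl (Or.inl (Or.inr h.ne))
    · exact Or.inl (Or.inr h.ne)
    · right
      exact Set.mem_iUnion.2 ⟨j, h.ne⟩
  · set u : Fin 2 ⊕ Fin t → K := Sum.elim ![((primorial y : ℕ) : K), ((w.natAbs : ℕ) : K)]
      (fun j => MvPolynomial.eval x (F j)) with hu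
    have h1 := sum_union_le (Finset.univ : Finset (Fin 2 ⊕ Fin t)) u (by
      rintro (i | j) _
      · fin_cases i
        · exact hyK
        · exact hwK'
      · exact hFx j) T0 T (by
      intro v hv
      rcases key v (hT v hv) with h | h | h | ⟨j, h⟩
      · exact Or.inl h
      · exact Or.inr ⟨Sum.inl 0, Finset.mem_univ _, h⟩
      · exact Or.inr ⟨Sum.inl 1, Finset.mem_univ _, h⟩
      · exact Or.inr ⟨Sum.inr j, Finset.mem_univ _, h⟩)
    rw [Fintype.sum_sum_type, Fin.sum_univ_two] at h1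
    have e0 : logHeight₁ (u (Sum.inl 0)) = (totalWeight K : ℝ) * Real.log (primorial y) :=
      logHeight₁_nat (primorial_pos y)
    have e1 : logHeight₁ (u (Sum.inl 1)) = (totalWeight K : ℝ) * Real.log (w.natAbs : ℕ) :=
      logHeight₁_nat (Nat.one_le_iff_ne_zero.2 hwN)
    have e2 : ∀ j, logHeight₁ (u (Sum.inr j)) ≤
        (totalWeight K : ℝ) * (e j * Real.log X) + Cj j := by
      intro j
      have := hCj j z X hX1 hzX
      rw [eval_bind] at this
      simp only [lin_eval] at this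
      exact this
    have hwabs : (2 : ℝ) ^ m * (w.natAbs : ℕ) ≤ (n + 1) * X := by
      have h2 : |((2 : ℝ) ^ m * (w : ℝ))| = |∑ i, (z i : ℝ)| := by
        congr 1
        have := congrArg (Int.cast : ℤ → ℝ) hsum
        push_cast at this
        exact this.symm
      rw [abs_mul, abs_of_pos (by positivity : (0 : ℝ) < 2 ^ m)] at h2
      have h3 : |(w : ℝ)| = ((w.natAbs : ℕ) : ℝ) := by
        rw [Nat.cast_natAbs, Int.cast_abs]
      rw [← h3, h2]
      refine (Finset.abs_sum_le_sum_abs _ _).trans ((Finset.sum_le_sum fun i _ => hzX i).trans ?_)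
      rw [Finset.sum_const, Finset.card_univ, Fintype.card_fin, nsmul_eq_mul]
      push_cast
      exact le_rfl
    have hwpos : (0 : ℝ) < (w.natAbs : ℕ) := by exact_mod_cast Nat.pos_of_ne_zero hwN
    have hlogw : Real.log (w.natAbs : ℕ) ≤ Real.log (n + 1) + (Real.log X - m * Real.log 2) := by
      have h2 := Real.log_le_log (by positivity) hwabs
      rw [Real.log_mul (by positivity) hwpos.ne', Real.log_pow,
        Real.log_mul (by positivity) hX0.ne'] at h2
      linarith
    have h4 : ∑ j, logHeight₁ (u (Sum.inr j)) ≤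
        ∑ j, ((totalWeight K : ℝ) * (e j * Real.log X) + Cj j) :=
      Finset.sum_le_sum fun j _ => e2 j
    rw [Finset.sum_add_distrib, ← Finset.mul_sum, ← Finset.sum_mul] at h4
    rw [e0, e1] at h1
    have h5 := mul_le_mul_of_nonneg_left hlogw hd0
    have h6 : (totalWeight K : ℝ) * (Real.log (primorial y) +
          (Real.log X - m * Real.log 2) + (∑ j, (e j : ℝ)) * Real.log X) =
        (totalWeight K : ℝ) * Real.log (primorial y) +
          (totalWeight K : ℝ) * (Real.log X - m * Real.log 2) +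
          (totalWeight K : ℝ) * ((∑ j, (e j : ℝ)) * Real.log X) := by ring
    rw [h6]
    rw [mul_add] at h5
    linarith

end Pool.Agent.N698.VT
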