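import Mathlib

set_option autoImplicit false

/-!
Pigeonhole together with the Schwartz-Zippel lemma.
-/

namespace Pool.Agent.N698.VT

open Finset

theorem pairs_ge (V : Finset ℕ) (M : ℕ) (hM : 0 < M) :
    V.card ^ 2 ≤ M * ∑ r ∈ Finset.range M, (V.filter fun u => u % M = r).card ^ 2 := by
  have h1 : V.card = ∑ r ∈ Finset.range M, (V.filter fun u => u % M = r).card :=
    Finset.card_eq_sum_card_fiberwise fun u _ => by
      simpa using Nat.mod_lt u hM
  have h2 := sq_sum_le_card_mul_sum_sq (s := Finset.range M)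
    (f := fun r => (V.filter fun u => u % M = r).card)
  rw [← h1, Finset.card_range] at h2
  exact h2

/-- tuples with `w 0 ≡ w 1` -/
theorem good_ge (V : Finset ℕ) (M k : ℕ) (hM : 0 < M) :
    V.card ^ (k + 2) ≤ M * ((Fintype.piFinset fun _ : Fin (k + 2) => V).filter
      fun w => w 0 % M = w 1 % M).card := by
  classical
  let t : ℕ → Fin (k + 2) → Finset ℕ := fun r =>
    Fin.cons (V.filter fun u => u % M = r) (Fin.cons (V.filter fun u => u % M = r) fun _ => V)
  have hcard : ∀ r, (Fintype.piFinset (t r)).card =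
      (V.filter fun u => u % M = r).card ^ 2 * V.card ^ k := by
    intro r
    rw [Fintype.card_piFinset, Fin.prod_univ_succ, Fin.prod_univ_succ]
    simp only [t, Fin.cons_zero, Fin.cons_succ, Finset.prod_const, Finset.card_univ,
      Fintype.card_fin]
    ring
  have hsub : (Finset.range M).biUnion (fun r => Fintype.piFinset (t r)) ⊆
      (Fintype.piFinset fun _ : Fin (k + 2) => V).filter fun w => w 0 % M = w 1 % M := by
    intro w hw
    obtain ⟨r, _, hr⟩ := Finset.mem_biUnion.1 hw
    rw [Fintype.mem_piFinset] at hr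
    have h0 := hr 0
    have h1 := hr 1
    have e0 : t r 0 = V.filter fun u => u % M = r := rfl
    have e1 : t r 1 = V.filter fun u => u % M = r := rfl
    rw [e0, Finset.mem_filter] at h0
    rw [e1, Finset.mem_filter] at h1
    refine Finset.mem_filter.2 ⟨Fintype.mem_piFinset.2 fun i => ?_, h0.2.trans h1.2.symm⟩
    refine Fin.cases h0.1 (fun j => ?_) i
    refine Fin.cases h1.1 (fun l => ?_) j
    have := hr l.succ.succ
    have e2 : t r l.succ.succ = V := rfl
    rwa [e2] at this
  have hdisj : (Finset.range M : Set ℕ).PairwiseDisjoint (fun r => Fintype.piFinset (t r)) := by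
    intro r _ r' _ hrr
    refine Finset.disjoint_left.2 fun w hw hw' => hrr ?_
    rw [Fintype.mem_piFinset] at hw hw'
    have h0 := hw 0
    have h1 := hw' 0
    have e0 : t r 0 = V.filter fun u => u % M = r := rfl
    have e1 : t r' 0 = V.filter fun u => u % M = r' := rfl
    rw [e0, Finset.mem_filter] at h0
    rw [e1, Finset.mem_filter] at h1
    exact h0.2.symm.trans h1.2
  have h3 := Finset.card_le_card hsub
  rw [Finset.card_biUnion hdisj, Finset.sum_congr rfl fun r _ => hcard r, ← Finset.sum_mul] at h3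
  calc V.card ^ (k + 2) = V.card ^ 2 * V.card ^ k := by ring
    _ ≤ (M * ∑ r ∈ Finset.range M, (V.filter fun u => u % M = r).card ^ 2) * V.card ^ k :=
        Nat.mul_le_mul_right _ (pairs_ge V M hM)
    _ = M * ((∑ r ∈ Finset.range M, (V.filter fun u => u % M = r).card ^ 2) * V.card ^ k) := by
        ring
    _ ≤ _ := Nat.mul_le_mul_left _ h3

theorem pick {Ω : Type*} [Field Ω] [CharZero Ω] {k : ℕ} (Q : MvPolynomial (Fin (k + 2)) Ω)
    (hQ : Q ≠ 0) {M D : ℕ} (hM : 0 < M) (hD : Q.totalDegree ≤ D) (V : Finset ℕ)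
    (hV : M * D < V.card) :
    ∃ w : Fin (k + 2) → ℕ, (∀ i, w i ∈ V) ∧ w 0 % M = w 1 % M ∧
      MvPolynomial.eval (fun i => (w i : Ω)) Q ≠ 0 := by
  classical
  by_contra hcon
  push Not at hcon
  have hinj : Function.Injective (Nat.cast : ℕ → Ω) := Nat.cast_injective
  set S : Finset Ω := V.map ⟨Nat.cast, hinj⟩ with hS
  have hSc : S.card = V.card := Finset.card_map _
  have hV0 : 0 < V.card := by omega
  have h1 := MvPolynomial.schwartz_zippel_totalDegree hQ S
  set B := (Fintype.piFinset fun _ : Fin (k + 2) => S).filter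
    fun f => MvPolynomial.eval f Q = 0 with hB
  set Gd := (Fintype.piFinset fun _ : Fin (k + 2) => V).filter
      (fun w => w 0 % M = w 1 % M) with hGd
  have h2 : Gd.card ≤ B.card := by
    refine Finset.card_le_card_of_injOn (fun w i => (w i : Ω)) ?_ ?_
    · intro w hw
      rw [Finset.mem_coe, hGd, Finset.mem_filter, Fintype.mem_piFinset] at hw
      rw [Finset.mem_coe, hB, Finset.mem_filter, Fintype.mem_piFinset]
      refine ⟨fun i => Finset.mem_map.2 ⟨w i, hw.1 i, rfl⟩, hcon w hw.1 hw.2⟩
    · intro w _ w' _ h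
      funext i
      exact hinj (congrFun h i)
  have h3 := good_ge V M k hM
  have h4 : B.card * V.card ≤ D * V.card ^ (k + 2) := by
    rw [hSc] at h1
    have hVq : (0 : ℚ≥0) < (V.card : ℚ≥0) := by exact_mod_cast hV0
    rw [div_le_div_iff₀ (pow_pos hVq _) hVq] at h1
    have h5 : B.card * V.card ≤ Q.totalDegree * V.card ^ (k + 2) := by exact_mod_cast h1
    exact h5.trans (Nat.mul_le_mul_right _ hD)
  have h6 : V.card ^ (k + 2) * V.card ≤ M * D * V.card ^ (k + 2) := by
    calc V.card ^ (k + 2) * V.card ≤ (M * Gd.card) * V.card := Nat.mul_le_mul_right _ h3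
      _ ≤ (M * B.card) * V.card := Nat.mul_le_mul_right _ (Nat.mul_le_mul_left _ h2)
      _ = M * (B.card * V.card) := by ring
      _ ≤ M * (D * V.card ^ (k + 2)) := Nat.mul_le_mul_left _ h4
      _ = _ := by ring
  have h7 : M * D * V.card ^ (k + 2) < V.card * V.card ^ (k + 2) :=
    Nat.mul_lt_mul_of_pos_right hV (pow_pos hV0 _)
  rw [mul_comm (V.card ^ (k + 2)) V.card] at h6
  omega

end Pool.Agent.N698.VT
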