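import Pool.Agent.N698.VT.Co
import Pool.Agent.N698.VT.Cnt
import Pool.Agent.N698.VT.Pick

set_option autoImplicit false

/-!
Existence of the integral vectors.
-/

namespace Pool.Agent.N698.VT

open NumberField IsDedekindDomain Height Finset Pool.Agent.W231.V

/-- the odd primes up to `y` -/
def oddP (y : ℕ) : Finset ℕ := (Nat.primesLE y).erase 2

theorem mem_oddP {y p : ℕ} : p ∈ oddP y ↔ p ≠ 2 ∧ p.Prime ∧ p ≤ y := by
  unfold oddP
  rw [Finset.mem_erase, Nat.mem_primesLE]
  tauto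

theorem eval_mul_hom {R σ : Type*} [CommRing R] [Fintype σ] {F : MvPolynomial σ R} {e : ℕ}
    (hF : F.IsHomogeneous e) (g : R) (x : σ → R) :
    MvPolynomial.eval (fun i => g * x i) F = g ^ e * MvPolynomial.eval x F := by
  rw [MvPolynomial.eval_eq', MvPolynomial.eval_eq', Finset.mul_sum]
  refine Finset.sum_congr rfl fun d hd => ?_
  have h1 : ∑ i, d i = e := by
    have := hF.degree_eq_sum_deg_support hd
    rw [this]
    exact (Finset.sum_subset (Finset.subset_univ _) fun i _ hi => by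
      simpa using hi).symm
  rw [Finset.prod_congr rfl fun i _ => mul_pow g (x i) (d i), Finset.prod_mul_distrib,
    Finset.prod_pow_eq_pow_sum, h1]
  ring

/-- the multipliers -/
def sg (k m : ℕ) (i : Fin (k + 2)) : ℤ := if i = 0 then 1 else if i = 1 then -1 else 2 ^ m

theorem sg_ne (k m : ℕ) (i : Fin (k + 2)) : sg k m i ≠ 0 := by
  unfold sg
  split_ifs <;> simp

theorem abs_sg_le (k m : ℕ) (i : Fin (k + 2)) : |(sg k m i : ℝ)| ≤ 2 ^ m := by
  have h1 : (1 : ℝ) ≤ 2 ^ m := one_le_pow₀ (by norm_num)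
  unfold sg
  split_ifs
  · simpa using h1
  · simpa using h1
  · push_cast
    rw [abs_of_pos (by positivity)]

theorem dvd_sum_sg (k m : ℕ) (w : Fin (k + 2) → ℕ) (h : w 0 % 2 ^ m = w 1 % 2 ^ m) :
    (2 : ℤ) ^ m ∣ ∑ i, sg k m i * w i := by
  rw [Fin.sum_univ_succ, Fin.sum_univ_succ, ← add_assoc]
  refine dvd_add ?_ (Finset.dvd_sum fun i _ => ?_)
  · have h0 : sg k m 0 = 1 := rfl
    have h1 : sg k m (Fin.succ 0) = -1 := by
      unfold sg
      rw [if_neg (Fin.succ_ne_zero _), if_pos]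
      rfl
    rw [h0, h1]
    have h2 : ((w 0 : ℕ) : ℤ) ≡ (w 1 : ℕ) [ZMOD ((2 ^ m : ℕ) : ℤ)] :=
      (Int.natCast_modEq_iff).2 h
    have h3 := h2.symm.dvd
    push_cast at h3
    have e1 : (Fin.succ 0 : Fin (k + 2)) = 1 := rfl
    rw [e1]
    have e2 : (1 : ℤ) * (w 0 : ℤ) + -1 * (w 1 : ℤ) = (w 0 : ℤ) - w 1 := by ring
    rw [e2]
    exact h3
  · have h1 : sg k m i.succ.succ = 2 ^ m := by
      unfold sg
      rw [if_neg (Fin.succ_ne_zero _), if_neg]
      intro h
      have := congrArg Fin.val h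
      simp at this
    rw [h1]
    exact dvd_mul_right _ _

theorem exists_z {K : Type*} [Field K] [NumberField K] {k t : ℕ}
    {L : Fin (k + 1 + 2) → Fin (k + 1 + 1) → K} {A : Fin (k + 1 + 1) → Fin (k + 1 + 1) → K}
    {c : Fin (k + 1 + 1) → K} (hAd : Adapted L A c)
    (F : Fin t → MvPolynomial (Fin (k + 1 + 1)) K)
    (e : Fin t → ℕ) (hF : ∀ j, (F j).IsHomogeneous (e j)) (hF0 : ∀ j, F j ≠ 0)
    {Ω : Type*} [Field Ω] [Algebra K Ω] (G : MvPolynomial (Fin (k + 1 + 1)) Ω) (hG : G ≠ 0) {δ : ℕ}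
    (hGδ : G.IsHomogeneous δ) {y m : ℕ} (hy : 2 ≤ y) {h : ℝ}
    (hV : 2 ^ m * (δ + ∑ j, e j + 1) < (U (oddP y) h).card) :
    ∃ (z a : Fin (k + 1 + 1) → ℤ) (w : ℤ) (X : ℝ), (∀ i, z i ≠ 0) ∧
      (∀ i, ∀ p : ℕ, p.Prime → (p : ℤ) ∣ z i → p ≤ y) ∧
      ∑ i, z i = 2 ^ m * w ∧ w ≠ 0 ∧ ∑ i, a i * z i = 1 ∧ (∀ i, |(z i : ℝ)| ≤ X) ∧
      (∃ i, |(z i : ℝ)| = X) ∧
      (∀ j, MvPolynomial.eval (pnt A fun i => (z i : K)) (F j) ≠ 0) ∧
      MvPolynomial.eval (fun j => algebraMap K Ω (pnt A (fun i => (z i : K)) j)) G ≠ 0 ∧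
      X ≤ 2 ^ m * Real.exp h := by
  classical
  have hcharΩ : CharZero Ω := charZero_of_injective_algebraMap (algebraMap K Ω).injective
  set M : Fin (k + 1 + 1) → Fin (k + 1 + 1) → Ω := fun l j =>
    (sg k m l : Ω) * algebraMap K Ω (A l j) with hM
  set G' : MvPolynomial (Fin (k + 1 + 1)) Ω := G * (∏ j, MvPolynomial.map (algebraMap K Ω) (F j)) *
    lf Ω (L (Fin.last _)) with hG'
  have hlf : (lf Ω (L (Fin.last _))).IsHomogeneous 1 :=
    MvPolynomial.IsHomogeneous.sum _ _ _ fun _ _ => MvPolynomial.isHomogeneous_C_mul_X _ _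
  have hlf0 : lf Ω (L (Fin.last _)) ≠ 0 := lf_ne _ (A 0) (by rw [hAd.last]; exact one_ne_zero)
  have hG'0 : G' ≠ 0 := by
    refine mul_ne_zero (mul_ne_zero hG (Finset.prod_ne_zero_iff.2 fun j _ => ?_)) hlf0
    intro h0
    exact hF0 j ((MvPolynomial.map_injective _ (algebraMap K Ω).injective)
      (h0.trans (map_zero _).symm))
  have hG'hom : G'.IsHomogeneous (δ + ∑ j, e j + 1) :=
    (hGδ.mul (MvPolynomial.IsHomogeneous.prod _ _ _ fun j _ => (hF j).map _)).mul hlf
  set Q := MvPolynomial.bind₁ (lin M) G' with hQ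
  have hQdeg : Q.totalDegree ≤ δ + ∑ j, e j + 1 := by
    have := hG'hom.aeval (lin M) (lin_hom M)
    rw [one_mul] at this
    exact this.totalDegree_le
  have hsgΩ : ∀ l, (sg k m l : Ω) ≠ 0 := fun l => Int.cast_ne_zero.2 (sg_ne k m l)
  have hQ0 : Q ≠ 0 := by
    intro h0
    apply hG'0
    refine MvPolynomial.funext fun p => ?_
    rw [map_zero]
    set u : Fin (k + 1 + 1) → Ω := fun l => (sg k m l : Ω)⁻¹ * (algebraMap K Ω (c l) *
      ∑ i, algebraMap K Ω (L (Fin.castSucc l) i) * p i) with hu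
    have h1 : pnt M u = p := by
      funext j
      have h2 : ∀ l, u l * M l j = ∑ i, algebraMap K Ω (A l j * (c l * L (Fin.castSucc l) i)) *
          p i := by
        intro l
        have h3 : u l * M l j = algebraMap K Ω (c l) * algebraMap K Ω (A l j) *
            ∑ i, algebraMap K Ω (L (Fin.castSucc l) i) * p i := by
          rw [hu, hM]
          have := hsgΩ l
          field_simp
        rw [h3, Finset.mul_sum]
        refine Finset.sum_congr rfl fun i _ => ?_
        rw [map_mul, map_mul]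
        ring
      unfold pnt
      rw [Finset.sum_congr rfl fun l _ => h2 l, Finset.sum_comm]
      have h4 : ∀ i, ∑ l, algebraMap K Ω (A l j * (c l * L (Fin.castSucc l) i)) * p i =
          (if j = i then 1 else 0) * p i := by
        intro i
        rw [← Finset.sum_mul, ← map_sum, hAd.inv j i]
        split_ifs <;> simp
      rw [Finset.sum_congr rfl fun i _ => h4 i]
      simp
    have h5 : MvPolynomial.eval u Q = MvPolynomial.eval p G' := by
      rw [hQ, eval_bind]
      simp only [lin_eval]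
      rw [h1]
    rw [← h5, h0, map_zero]
  obtain ⟨w0, hw0, hw1, hw2⟩ := pick Q hQ0 (M := 2 ^ m) (by positivity) hQdeg (U (oddP y) h) hV
  have hU := fun i => mem_U.1 (hw0 i)
  set z0 : Fin (k + 1 + 1) → ℤ := fun i => sg k m i * w0 i with hz0
  have hpnt : ∀ j, algebraMap K Ω (pnt A (fun i => (z0 i : K)) j) =
      pnt M (fun i => (w0 i : Ω)) j := by
    intro j
    unfold pnt
    rw [map_sum]
    refine Finset.sum_congr rfl fun l _ => ?_
    rw [map_mul, map_intCast, hz0, hM]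
    push_cast
    ring
  have hev : MvPolynomial.eval (fun j => algebraMap K Ω (pnt A (fun i => (z0 i : K)) j)) G' ≠ 0 := by
    intro h0
    apply hw2
    rw [hQ, eval_bind]
    simp only [lin_eval]
    rw [← h0]
    congr 2
    funext j
    exact (hpnt j).symm
  rw [hG', map_mul, map_mul, map_prod, lf_eval, hAd.sum_last] at hev
  have hev1 := left_ne_zero_of_mul (left_ne_zero_of_mul hev)
  have hev2 := right_ne_zero_of_mul (left_ne_zero_of_mul hev)
  have hev3 := right_ne_zero_of_mul hev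
  rw [Finset.prod_ne_zero_iff] at hev2
  have hev2' : ∀ j, MvPolynomial.eval (pnt A (fun i => (z0 i : K))) (F j) ≠ 0 := by
    intro j h0
    apply hev2 j (Finset.mem_univ j)
    rw [MvPolynomial.eval_map]
    have h1 : MvPolynomial.eval₂ (algebraMap K Ω)
        (fun i => algebraMap K Ω (pnt A (fun i => (z0 i : K)) i)) (F j) =
        algebraMap K Ω (MvPolynomial.eval (pnt A (fun i => (z0 i : K))) (F j)) := by
      rw [MvPolynomial.eval, MvPolynomial.coe_eval₂Hom, MvPolynomial.hom_eval₂, RingHom.comp_id]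
    rw [h1, h0, map_zero]
  have hsum0 : (∑ i, z0 i) ≠ 0 := by
    intro h0
    apply hev3
    have : (∑ l, ((z0 l : ℤ) : K)) = ((∑ i, z0 i : ℤ) : K) := by push_cast; rfl
    rw [this, h0, Int.cast_zero, map_zero]
  -- the greatest common divisor
  obtain ⟨g, hg⟩ := (IsPrincipalIdealRing.principal (Ideal.span (Set.range z0))).principal
  have hg1 : ∀ i, g ∣ z0 i := by
    intro i
    have h1 : z0 i ∈ Ideal.span (Set.range z0) := Ideal.subset_span ⟨i, rfl⟩
    rw [hg] at h1
    exact Ideal.mem_span_singleton.1 h1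
  have hg2 : ∃ a : Fin (k + 1 + 1) → ℤ, ∑ i, a i * z0 i = g := by
    have h1 : g ∈ Ideal.span (Set.range z0) := by
      rw [hg]; exact Ideal.mem_span_singleton_self g
    exact Ideal.mem_span_range_iff_exists_fun.1 h1
  obtain ⟨a, ha⟩ := hg2
  choose z hz using hg1
  have hw00 : ∀ i, (w0 i : ℤ) ≠ 0 := fun i => by exact_mod_cast (hU i).1
  have hz00 : ∀ i, z0 i ≠ 0 := fun i => mul_ne_zero (sg_ne k m i) (hw00 i)
  have hg0 : g ≠ 0 := by
    intro h0
    apply hz00 0
    rw [hz 0, h0, zero_mul]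
  have hzne : ∀ i, z i ≠ 0 := by
    intro i h0
    apply hz00 i
    rw [hz i, h0, mul_zero]
  have hbez : ∑ i, a i * z i = 1 := by
    have h1 : g * ∑ i, a i * z i = g * 1 := by
      rw [mul_one, Finset.mul_sum]
      conv_rhs => rw [← ha]
      refine Finset.sum_congr rfl fun i _ => ?_
      rw [hz i]; ring
    exact mul_left_cancel₀ hg0 h1
  have hgodd : IsCoprime ((2 : ℤ) ^ m) g := by
    refine IsCoprime.pow_left ?_
    rw [Int.isCoprime_iff_gcd_eq_one]
    have h1 : Nat.Coprime 2 g.natAbs := by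
      rw [Nat.Prime.coprime_iff_not_dvd Nat.prime_two]
      intro h2
      have h3 : (2 : ℤ) ∣ z0 0 := by
        have : (2 : ℤ) ∣ g := by
          have := Int.natCast_dvd.2 h2
          exact_mod_cast this
        exact this.trans ⟨z 0, hz 0⟩
      have h4 : z0 0 = (w0 0 : ℤ) := by
        rw [hz0]
        change sg k m 0 * (w0 0 : ℤ) = _
        rw [show sg k m 0 = 1 from rfl, one_mul]
      rw [h4] at h3
      have h5 : 2 ∣ w0 0 := by exact_mod_cast h3
      have h6 := (hU 0).2.2 (Nat.mem_primeFactors.2 ⟨Nat.prime_two, h5, (hU 0).1⟩)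
      exact (mem_oddP.1 h6).1 rfl
    exact h1
  have hgsum : ∑ i, z0 i = g * ∑ i, z i := by
    rw [Finset.mul_sum]
    exact Finset.sum_congr rfl fun i _ => hz i
  have hdvd : (2 : ℤ) ^ m ∣ ∑ i, z i := by
    have h1 := dvd_sum_sg k m w0 hw1
    change (2 : ℤ) ^ m ∣ ∑ i, z0 i at h1
    rw [hgsum] at h1
    exact hgodd.dvd_of_dvd_mul_left h1
  obtain ⟨w, hw⟩ := hdvd
  have hwne : w ≠ 0 := by
    intro h0
    apply hsum0
    rw [hgsum, hw, h0, mul_zero, mul_zero]
  obtain ⟨i0, _, hi0⟩ := Finset.exists_max_image Finset.univ (fun i => |(z i : ℝ)|)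
    Finset.univ_nonempty
  have hgabs : (1 : ℝ) ≤ |(g : ℝ)| := by exact_mod_cast Int.one_le_abs hg0
  have hpz : ∀ j, pnt A (fun i => (z0 i : K)) j = (g : K) * pnt A (fun i => (z i : K)) j := by
    intro j
    unfold pnt
    rw [Finset.mul_sum]
    refine Finset.sum_congr rfl fun l _ => ?_
    change (z0 l : K) * A l j = (g : K) * ((z l : K) * A l j)
    rw [hz l, Int.cast_mul]
    ring
  refine ⟨z, a, w, |(z i0 : ℝ)|, hzne, ?_, hw, hwne, hbez, fun i => hi0 i (Finset.mem_univ i),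
    ⟨i0, rfl⟩, ?_, ?_, ?_⟩
  · intro i p hp hpz
    have h1 : (p : ℤ) ∣ sg k m i * w0 i := by
      have : (p : ℤ) ∣ z0 i := by rw [hz i]; exact hpz.mul_left g
      exact this
    rcases (Nat.prime_iff_prime_int.1 hp).dvd_or_dvd h1 with h2 | h2
    · have h3 : (p : ℤ) ∣ 2 ^ m := by
        unfold sg at h2
        split_ifs at h2
        · exact h2.trans (one_dvd _)
        · exact (h2.trans (by simp : (-1 : ℤ) ∣ 1)).trans (one_dvd _)
        · exact h2
      have h4 : p ∣ 2 ^ m := by exact_mod_cast h3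
      exact (Nat.le_of_dvd two_pos (hp.dvd_of_dvd_pow h4)).trans hy
    · have h3 : p ∣ w0 i := by exact_mod_cast h2
      exact (mem_oddP.1 ((hU i).2.2 (Nat.mem_primeFactors.2 ⟨hp, h3, (hU i).1⟩))).2.2
  · intro j h0
    apply hev2' j
    have : pnt A (fun i => (z0 i : K)) = fun i => (g : K) * pnt A (fun i => (z i : K)) i :=
      funext hpz
    rw [this, eval_mul_hom (hF j), h0, mul_zero]
  · intro h0
    apply hev1
    have : (fun j => algebraMap K Ω (pnt A (fun i => (z0 i : K)) j)) =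
        fun j => (g : Ω) * algebraMap K Ω (pnt A (fun i => (z i : K)) j) := by
      funext j
      rw [hpz j, map_mul, map_intCast]
    rw [this, eval_mul_hom hGδ, h0, mul_zero]
  · have h1 : |(z i0 : ℝ)| ≤ |(z0 i0 : ℝ)| := by
      rw [hz i0]
      push_cast
      rw [abs_mul]
      exact le_mul_of_one_le_left (abs_nonneg _) hgabs
    refine h1.trans ?_
    have h2 : (z0 i0 : ℝ) = (sg k m i0 : ℝ) * (w0 i0 : ℝ) := by
      rw [hz0]; push_cast; rfl
    rw [h2, abs_mul]
    refine mul_le_mul (abs_sg_le k m i0) ?_ (abs_nonneg _) (by positivity)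
    rw [abs_of_nonneg (Nat.cast_nonneg _)]
    exact (hU i0).2.1

end Pool.Agent.N698.VT
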