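import Pool.Agent.N698.VT.As

set_option autoImplicit false

/-!
Choice of the parameters.
-/

namespace Pool.Agent.N698.VT

open Filter Topology Real Finset

theorem log_primorial_le (y : ℕ) : Real.log (primorial y) ≤ 2 * y := by
  have h1 := Chebyshev.theta_le_log4_mul_x (x := (y : ℝ)) (Nat.cast_nonneg y)
  rw [Chebyshev.theta_eq_log_primorial, Nat.floor_natCast] at h1
  have h2 : Real.log 4 ≤ 2 := by
    have h3 : Real.log 4 = 2 * Real.log 2 := by
      rw [show (4 : ℝ) = 2 ^ 2 by norm_num, Real.log_pow]; norm_num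
    have := Real.log_two_lt_d9
    rw [h3]; linarith
  exact h1.trans (mul_le_mul_of_nonneg_right h2 (Nat.cast_nonneg y))

theorem params (d : ℝ) (hd : 1 ≤ d) (C C' : ℝ) (hC : 0 ≤ C) (hC' : 0 ≤ C') (e : ℕ) (he : 1 ≤ e)
    {c : ℝ} (hc : c < 4) : ∃ H0 : ℝ, ∀ H E : ℝ, H0 ≤ H → 0 ≤ E → ∀ δ : ℕ,
      E + d * Real.log (max (δ : ℝ) 1) ≤ c * √(d * H) / Real.log H →
      ∃ y m : ℕ, ∃ h : ℝ, 2 ≤ y ∧ 2 ^ m * (δ + e) < (U (oddP y) h).card ∧
        d * (m * Real.log 2 + h) + C ≤ H ∧
        E + C' ≤ d * (m * Real.log 2 - Real.log (primorial y)) := by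
  have hd0 : 0 < d := by linarith
  set c1 := max c 0 with hc1
  have hc10 : 0 ≤ c1 := le_max_right _ _
  have hc14 : c1 < 4 := max_lt hc (by norm_num)
  obtain ⟨η, hη0, hη1, hasym⟩ := asym (c := c1 / 4 + 1) (by linarith)
  set c2 := c1 / 4 + 1 with hc2
  set μ := 1 - c1 / 4 with hμ
  have hμ0 : 0 < μ := by rw [hμ]; linarith
  have hμ1 : μ ≤ 1 := by rw [hμ]; linarith
  set η1 := μ / 4 with hη1d
  have hη10 : 0 < η1 := by positivity
  have hmargin : c1 + μ ≤ 2 * c2 * (1 - η1) := by
    rw [hη1d, hc2, hμ]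
    nlinarith
  obtain ⟨Y0, hY0⟩ := eventually_atTop.1 hasym
  have hexp : Real.exp (-η) < 1 := by
    have := Real.exp_lt_exp.2 (show -η < 0 by linarith)
    rwa [Real.exp_zero] at this
  set ρ := (1 - Real.exp (-η)) * (1 - η1) ^ 2 with hρ
  have hρ0 : 0 < ρ := by
    have : 0 < 1 - η1 := by linarith
    have h2 : 0 < 1 - Real.exp (-η) := by linarith
    positivity
  set C3 := C' + 2 + Real.log (1 + e) with hC3
  -- the conditions on `H`
  have hR : Tendsto (fun H : ℝ => √(H / d)) atTop atTop :=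
    Real.tendsto_sqrt_atTop.comp (tendsto_id.atTop_div_const hd0)
  have q1 : ∀ᶠ H : ℝ in atTop, C ≤ (1 - (1 - η1 / 2) ^ 2) * H := by
    have : 0 < 1 - (1 - η1 / 2) ^ 2 := by nlinarith
    exact (tendsto_id.const_mul_atTop this).eventually_ge_atTop C
  have q2 : ∀ᶠ H : ℝ in atTop, 1 ≤ (η1 / 2) * √(H / d) :=
    (hR.const_mul_atTop (by positivity)).eventually_ge_atTop 1
  have q3 : ∀ᶠ H : ℝ in atTop, (Y0 : ℝ) + 3 ≤ (1 - η1) * √(H / d) :=
    (hR.const_mul_atTop (by linarith)).eventually_ge_atTop _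
  have q4 : ∀ᶠ H : ℝ in atTop, C3 * Real.log H ≤ μ * √(H / d) := by
    have e1 : Tendsto (fun x : ℝ => Real.log x / √x) atTop (𝓝 0) := by
      have h1 := (isLittleO_log_rpow_atTop (show (0 : ℝ) < 1 / 2 by norm_num)).tendsto_div_nhds_zero
      refine h1.congr fun x => ?_
      rw [Real.sqrt_eq_rpow]
    have hpos : 0 < μ / (√d * (|C3| + 1)) := by
      have := Real.sqrt_pos.2 hd0
      positivity
    filter_upwards [e1.eventually (gt_mem_nhds hpos), eventually_gt_atTop 1] with H hH hH1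
    have hs : 0 < √H := Real.sqrt_pos.2 (by linarith)
    have hsd : 0 < √d := Real.sqrt_pos.2 hd0
    have hl : 0 < Real.log H := Real.log_pos hH1
    rw [div_lt_div_iff₀ hs (by positivity)] at hH
    rw [Real.sqrt_div (by linarith), mul_div_assoc', le_div_iff₀ hsd]
    have h2 : C3 ≤ |C3| + 1 := by linarith [le_abs_self C3]
    have h3 : C3 * Real.log H * √d ≤ (|C3| + 1) * Real.log H * √d := by gcongr
    linarith
  have q5 : ∀ᶠ H : ℝ in atTop, (c1 + 2) * √(H / d) + (C' + 1) ≤ ρ * √(H / d) ^ 2 := by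
    have h1 : ∀ᶠ x : ℝ in atTop, (c1 + 2) * x + (C' + 1) ≤ ρ * x ^ 2 := by
      filter_upwards [eventually_ge_atTop 1, eventually_ge_atTop ((c1 + 2 + C' + 1) / ρ)] with
        x hx1 hx2
      rw [div_le_iff₀ hρ0] at hx2
      nlinarith
    exact hR.eventually h1
  obtain ⟨H0, hH0⟩ := eventually_atTop.1 (((((q1.and q2).and q3).and q4).and q5).and
    (eventually_ge_atTop (Real.exp 1 + C)))
  refine ⟨H0, fun H E hH hE δ hδ => ?_⟩
  obtain ⟨⟨⟨⟨⟨q1, q2⟩, q3⟩, q4⟩, q5⟩, q6⟩ := hH0 H hH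
  have hHe : Real.exp 1 ≤ H := by linarith
  have hH1 : 0 < H := by linarith [Real.exp_pos 1]
  have hHC : 0 ≤ H - C := by linarith [Real.exp_pos 1]
  have hL1 : 1 ≤ Real.log H := by
    rw [Real.le_log_iff_exp_le hH1]; exact hHe
  set Λ := Real.log H with hΛ
  set R := √(H / d) with hRd
  have hR0 : 0 < R := Real.sqrt_pos.2 (by positivity)
  have hR2 : R ^ 2 = H / d := Real.sq_sqrt (by positivity)
  have hdR : √(d * H) = d * R := by
    have : d * H = (d * R) ^ 2 := by rw [mul_pow, hR2]; field_simp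
    rw [this, Real.sqrt_sq (by positivity)]
  set R1 := √((H - C) / d) with hR1
  have hR12 : R1 ^ 2 = (H - C) / d := Real.sq_sqrt (by positivity)
  have hR10 : 0 ≤ R1 := Real.sqrt_nonneg _
  have hR1R : R1 ≤ R := Real.sqrt_le_sqrt (div_le_div_of_nonneg_right (by linarith) hd0.le)
  have hR1lo : (1 - η1 / 2) * R ≤ R1 := by
    refine Real.le_sqrt_of_sq_le ?_
    rw [mul_pow, hR2, mul_div_assoc', div_le_div_iff_of_pos_right hd0]
    linarith
  set y := ⌊R1⌋₊ with hy
  have hyR1 : (y : ℝ) ≤ R1 := Nat.floor_le hR10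
  have hylo : (1 - η1) * R ≤ y := by
    have := Nat.lt_floor_add_one R1
    rw [← hy] at this
    linarith
  have hyY0 : (Y0 : ℝ) + 3 ≤ y := q3.trans hylo
  have hyY0' : Y0 ≤ y := by
    have : (Y0 : ℝ) ≤ y := by linarith
    exact_mod_cast this
  have hy3 : (3 : ℝ) ≤ y := by
    have : (0 : ℝ) ≤ Y0 := Nat.cast_nonneg _
    linarith
  have hy2 : 2 ≤ y := by
    have : (2 : ℝ) ≤ y := by linarith
    exact_mod_cast this
  have hly : 0 < Real.log y := Real.log_pos (by linarith)
  have hlyΛ : Real.log y ≤ Λ / 2 := by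
    have h1 : Real.log y ≤ Real.log R := Real.log_le_log (by linarith) (hyR1.trans hR1R)
    have h2 : Real.log R = Real.log (H / d) / 2 := by
      rw [hRd, Real.log_sqrt (by positivity)]
    have h3 : Real.log (H / d) ≤ Λ := Real.log_le_log (by positivity) (div_le_self hH1.le hd)
    linarith
  have hδ' : E + d * Real.log (max (δ : ℝ) 1) ≤ c1 * (d * R) / Λ := by
    rw [hdR] at hδ
    refine hδ.trans ?_
    have : c ≤ c1 := le_max_left _ _
    gcongr
  have hlogδ : 0 ≤ Real.log (max (δ : ℝ) 1) := Real.log_nonneg (le_max_right _ _)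
  have hδ2 : E / d + Real.log (max (δ : ℝ) 1) ≤ c1 * R / Λ := by
    have h1 : (E + d * Real.log (max (δ : ℝ) 1)) / d ≤ (c1 * (d * R) / Λ) / d :=
      div_le_div_of_nonneg_right hδ' hd0.le
    have h2 : (E + d * Real.log (max (δ : ℝ) 1)) / d = E / d + Real.log (max (δ : ℝ) 1) := by
      field_simp
    have h3 : (c1 * (d * R) / Λ) / d = c1 * R / Λ := by field_simp
    rwa [h2, h3] at h1
  have hE2 : E / d ≤ c1 * R := by
    have h1 : c1 * R / Λ ≤ c1 * R := div_le_self (by positivity) hL1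
    linarith
  have hEd : 0 ≤ E / d := by positivity
  have hCd : C' / d ≤ C' := div_le_self hC' hd
  have hCd0 : 0 ≤ C' / d := by positivity
  have hl2 : 0 < Real.log 2 := Real.log_pos (by norm_num)
  have hl2' : Real.log 2 ≤ 1 := by linarith [Real.log_two_lt_d9]
  set θ := Real.log (primorial y) with hθ
  have hθ0 : 0 ≤ θ := Real.log_natCast_nonneg _
  have hθy : θ ≤ 2 * y := log_primorial_le y
  set m := ⌈((E + C') / d + θ) / Real.log 2⌉₊ with hm
  have hm1 : (E + C') / d + θ ≤ m * Real.log 2 := by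
    have := Nat.le_ceil (((E + C') / d + θ) / Real.log 2)
    rwa [div_le_iff₀ hl2] at this
  have hm2 : m * Real.log 2 < (E + C') / d + θ + Real.log 2 := by
    have := Nat.ceil_lt_add_one (a := ((E + C') / d + θ) / Real.log 2) (by positivity)
    rw [← hm] at this
    have h3 := mul_lt_mul_of_pos_right this hl2
    rw [add_mul, div_mul_cancel₀ _ hl2.ne', one_mul] at h3
    exact h3
  have hsplit : (E + C') / d = E / d + C' / d := add_div _ _ _
  rw [hsplit] at hm1 hm2
  set h := (H - C) / d - m * Real.log 2 with hh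
  have hhlo : Real.exp (-η) * (y : ℝ) ^ 2 ≤ h := by
    have h1 : (y : ℝ) ^ 2 ≤ (H - C) / d := by
      rw [← hR12]
      exact pow_le_pow_left₀ (by linarith) hyR1 2
    have h2 : ρ * R ^ 2 ≤ (1 - Real.exp (-η)) * (y : ℝ) ^ 2 := by
      have h3 : ((1 - η1) * R) ^ 2 ≤ (y : ℝ) ^ 2 :=
        pow_le_pow_left₀ (mul_nonneg (by linarith) hR0.le) hylo 2
      calc ρ * R ^ 2 = (1 - Real.exp (-η)) * ((1 - η1) * R) ^ 2 := by rw [hρ]; ring
        _ ≤ _ := mul_le_mul_of_nonneg_left h3 (by linarith)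
    have h4 : (m : ℝ) * Real.log 2 ≤ (c1 + 2) * R + (C' + 1) := by
      have : (y : ℝ) ≤ R := hyR1.trans hR1R
      linarith
    rw [hh]
    linarith
  have hUlog := hY0 y hyY0' h hhlo
  refine ⟨y, m, h, hy2, ?_, ?_, ?_⟩
  · have h1 : Real.log ((2 : ℝ) ^ m * (δ + e)) < Real.log (U (oddP y) h).card := by
      have he1 : (1 : ℝ) ≤ e := by exact_mod_cast he
      have hδe : (0 : ℝ) < δ + e := by
        have : (0 : ℝ) ≤ δ := Nat.cast_nonneg _
        linarith
      rw [Real.log_mul (by positivity) hδe.ne', Real.log_pow]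
      have h2 : Real.log ((δ : ℝ) + e) ≤ Real.log (max (δ : ℝ) 1) + Real.log (1 + e) := by
        rw [← Real.log_mul (by positivity) (by positivity)]
        refine Real.log_le_log hδe ?_
        have h3 := le_max_left (δ : ℝ) 1
        have h4 := le_max_right (δ : ℝ) 1
        have h5 : (e : ℝ) ≤ max (δ : ℝ) 1 * e := le_mul_of_one_le_left (by linarith) h4
        rw [mul_add, mul_one]
        exact add_le_add h3 h5
      have h3 : (c1 + μ) * (R / Λ) ≤ c2 * (y / Real.log y) := by
        have h4 : 2 * ((1 - η1) * R) / Λ ≤ y / Real.log y := by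
          rw [div_le_div_iff₀ (by linarith) hly]
          calc 2 * ((1 - η1) * R) * Real.log y ≤ 2 * y * (Λ / 2) := by
                refine mul_le_mul (by linarith) hlyΛ hly.le (by linarith)
            _ = y * Λ := by ring
        have hc20 : 0 ≤ c2 := by rw [hc2]; linarith
        have hRΛ : 0 ≤ R / Λ := by positivity
        calc (c1 + μ) * (R / Λ) ≤ (2 * c2 * (1 - η1)) * (R / Λ) :=
              mul_le_mul_of_nonneg_right hmargin hRΛ
          _ = c2 * (2 * ((1 - η1) * R) / Λ) := by ring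
          _ ≤ _ := mul_le_mul_of_nonneg_left h4 hc20
      have h5 : C3 ≤ μ * (R / Λ) := by
        rw [mul_div_assoc', le_div_iff₀ (by linarith)]
        exact q4
      have h6 : c1 * R / Λ = c1 * (R / Λ) := by ring
      rw [h6] at hδ2
      rw [hC3] at h5
      linarith
    have hpos : (1 : ℝ) ≤ (2 : ℝ) ^ m * (δ + e) := by
      have he1 : (1 : ℝ) ≤ e := by exact_mod_cast he
      have h7 : (1 : ℝ) ≤ 2 ^ m := one_le_pow₀ (by norm_num)
      have h8 : (1 : ℝ) ≤ δ + e := by
        have : (0 : ℝ) ≤ δ := Nat.cast_nonneg _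
        linarith
      exact one_le_mul_of_one_le_of_one_le h7 h8
    have h9 : (2 : ℝ) ^ m * (δ + e) < ((U (oddP y) h).card : ℝ) := by
      by_contra hcon
      rw [not_lt] at hcon
      rcases Nat.eq_zero_or_pos (U (oddP y) h).card with h10 | h10
      · rw [h10, Nat.cast_zero, Real.log_zero] at h1
        have := Real.log_nonneg hpos
        linarith
      · have := Real.log_le_log (by exact_mod_cast h10) hcon
        linarith
    exact_mod_cast h9
  · have : d * (m * Real.log 2 + h) + C = H := by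
      rw [hh]; field_simp; ring
    exact this.le
  · have h1 := mul_le_mul_of_nonneg_left hm1 hd0.le
    have h2 : d * (E / d + C' / d + θ) = E + C' + d * θ := by field_simp
    rw [h2] at h1
    linarith

end Pool.Agent.N698.VT
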